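import Pool.Agent.Lib.MP_2794d1_ag.DL.Defs

/-!
DL.Alg: tuples of algebraic numbers satisfy polynomial Diophantine bounds (Liouville's inequality,
by the norm of the number field generated by the tuple).
-/

set_option autoImplicit false

namespace MP2794d1

open MvPolynomial

/-- Liouville inequality for a tuple of algebraic numbers. -/
theorem algebraic_liouville {m : ℕ} (x : Fin m → ℂ) (hx : ∀ i, IsAlgebraic ℚ (x i)) (d : ℕ) :
    ∃ (n : ℕ) (C : ℝ), 0 < C ∧ ∀ (P : MvPolynomial (Fin m) ℤ) (h : ℝ), P.totalDegree ≤ d → 1 ≤ h →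
      (∀ e, |((P.coeff e : ℤ) : ℝ)| ≤ h) → aeval x P ≠ 0 → 1 ≤ C * h ^ n * ‖aeval x P‖ := by
  classical
  set L := IntermediateField.adjoin ℚ (Set.range x) with hL
  have hfd : FiniteDimensional ℚ L := by
    refine IntermediateField.finiteDimensional_adjoin ?_
    rintro _ ⟨i, rfl⟩
    exact (hx i).isIntegral
  set y : Fin m → L := fun i => ⟨x i, IntermediateField.subset_adjoin _ _ ⟨i, rfl⟩⟩ with hy
  have hyx : ∀ i, (L.val (y i) : ℂ) = x i := fun i => rfl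
  have hyint : ∃ D : ℤ, D ≠ 0 ∧ ∀ i, IsIntegral ℤ (D • y i) := by
    have h1 : ∀ i, ∃ D : ℤ, D ≠ 0 ∧ IsIntegral ℤ (D • y i) := fun i =>
      (IsFractionRing.isAlgebraic_iff ℤ ℚ L).2 (Algebra.IsAlgebraic.isAlgebraic (y i))
        |>.exists_integral_multiple
    choose D hD0 hD using h1
    refine ⟨∏ i, D i, Finset.prod_ne_zero_iff.2 (fun i _ => hD0 i), fun i => ?_⟩
    rw [← Finset.prod_erase_mul _ _ (Finset.mem_univ i), mul_smul]
    exact (hD i).smul _
  obtain ⟨D, hD0, hD⟩ := hyint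
  -- monomials of degree at most d
  have hmon : ∀ e : Fin m →₀ ℕ, e.sum (fun _ k => k) ≤ d →
      IsIntegral ℤ (D ^ d • (e.prod fun i k => y i ^ k)) := by
    intro e he
    have h1 : D ^ d • (e.prod fun i k => y i ^ k) =
        D ^ (d - e.sum (fun _ k => k)) • (e.prod fun i k => (D • y i) ^ k) := by
      have h2 : (e.prod fun i k => (D • y i) ^ k) =
          D ^ (e.sum (fun _ k => k)) • (e.prod fun i k => y i ^ k) := by
        simp only [Finsupp.prod, Finsupp.sum, smul_pow]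
        rw [Finset.prod_smul, Finset.prod_pow_eq_pow_sum]
      rw [h2, smul_smul, ← pow_add, Nat.sub_add_cancel he]
    rw [h1]
    refine IsIntegral.smul _ ?_
    exact IsIntegral.prod _ (fun i _ => (hD i).pow _)
  -- the set of exponents
  set E : Finset (Fin m →₀ ℕ) := (Finset.Icc (0 : Fin m →₀ ℕ) (Finsupp.equivFunOnFinite.symm (fun _ => d))) with hE
  have hsub : ∀ P : MvPolynomial (Fin m) ℤ, P.totalDegree ≤ d → P.support ⊆ E := by
    intro P hP e he
    rw [hE, Finset.mem_Icc]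
    refine ⟨bot_le, fun i => ?_⟩
    have h1 : e.sum (fun _ k => k) ≤ d := (le_totalDegree he).trans hP
    have h2 : e i ≤ e.sum (fun _ k => k) := by
      by_cases hi : i ∈ e.support
      · exact Finset.single_le_sum (f := fun i => e i) (fun _ _ => Nat.zero_le _) hi
      · rw [Finsupp.notMem_support_iff.1 hi]; exact Nat.zero_le _
    simpa using h2.trans h1
  have haev : ∀ (R : Type) [CommRing R] (v : Fin m → R) (P : MvPolynomial (Fin m) ℤ),
      aeval v P = ∑ e ∈ P.support, (P.coeff e) • (e.prod fun i k => v i ^ k) := by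
    intro R _ v P
    rw [aeval_def, eval₂_eq]
    refine Finset.sum_congr rfl (fun e _ => ?_)
    rw [zsmul_eq_mul]
    rfl
  have hPint : ∀ P : MvPolynomial (Fin m) ℤ, P.totalDegree ≤ d → IsIntegral ℤ (D ^ d • aeval y P) := by
    intro P hP
    rw [haev, Finset.smul_sum]
    refine IsIntegral.sum _ (fun e he => ?_)
    rw [smul_comm]
    exact (hmon e ((le_totalDegree he).trans hP)).smul _
  -- the embeddings
  set B : ℝ := |(D : ℝ)| ^ d * ∑ σ : L →ₐ[ℚ] ℂ, ∑ e ∈ E, ∏ i, ‖σ (y i)‖ ^ (e i) with hB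
  have hB0 : 0 ≤ B := by positivity
  have hbd : ∀ (P : MvPolynomial (Fin m) ℤ) (h : ℝ), P.totalDegree ≤ d → 1 ≤ h →
      (∀ e, |((P.coeff e : ℤ) : ℝ)| ≤ h) → ∀ σ : L →ₐ[ℚ] ℂ, ‖σ (D ^ d • aeval y P)‖ ≤ B * h := by
    intro P h hP hh hc σ
    have h1 : σ (D ^ d • aeval y P) = (D : ℂ) ^ d * ∑ e ∈ P.support, ((P.coeff e : ℤ) : ℂ) *
        ∏ i, (σ (y i)) ^ (e i) := by
      rw [haev, zsmul_eq_mul, map_mul, map_sum]
      congr 1
      · simp
      · refine Finset.sum_congr rfl (fun e _ => ?_)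
        rw [zsmul_eq_mul, map_mul, map_intCast, Finsupp.prod_fintype _ _ (fun i => pow_zero _),
          map_prod]
        simp only [map_pow]
    rw [h1, norm_mul, norm_pow, Complex.norm_intCast]
    have h2 : ‖∑ e ∈ P.support, ((P.coeff e : ℤ) : ℂ) * ∏ i, (σ (y i)) ^ (e i)‖ ≤
        h * ∑ e ∈ E, ∏ i, ‖σ (y i)‖ ^ (e i) := by
      refine (norm_sum_le _ _).trans ?_
      rw [Finset.mul_sum]
      refine (Finset.sum_le_sum (fun e _ => ?_)).trans
        (Finset.sum_le_sum_of_subset_of_nonneg (hsub P hP) (fun e _ _ => by positivity))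
      rw [norm_mul, Complex.norm_intCast, norm_prod]
      simp only [norm_pow]
      exact mul_le_mul_of_nonneg_right (hc e) (by positivity)
    have h3 : ∑ e ∈ E, ∏ i, ‖σ (y i)‖ ^ (e i) ≤ ∑ σ : L →ₐ[ℚ] ℂ, ∑ e ∈ E, ∏ i, ‖σ (y i)‖ ^ (e i) :=
      Finset.single_le_sum (f := fun σ : L →ₐ[ℚ] ℂ => ∑ e ∈ E, ∏ i, ‖σ (y i)‖ ^ (e i))
        (fun _ _ => by positivity) (Finset.mem_univ σ)
    calc |(D : ℝ)| ^ d * ‖∑ e ∈ P.support, ((P.coeff e : ℤ) : ℂ) * ∏ i, (σ (y i)) ^ (e i)‖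
        ≤ |(D : ℝ)| ^ d * (h * ∑ σ : L →ₐ[ℚ] ℂ, ∑ e ∈ E, ∏ i, ‖σ (y i)‖ ^ (e i)) :=
          mul_le_mul_of_nonneg_left (h2.trans (mul_le_mul_of_nonneg_left h3 (by linarith)))
            (by positivity)
      _ = B * h := by rw [hB]; ring
  refine ⟨Fintype.card (L →ₐ[ℚ] ℂ), |(D : ℝ)| ^ d * (max 1 B) ^ (Fintype.card (L →ₐ[ℚ] ℂ)), ?_, ?_⟩
  · have : (0 : ℝ) < |(D : ℝ)| := by
      rw [abs_pos]; exact_mod_cast hD0
    positivity
  intro P h hP hh hc hne
  set z : L := D ^ d • aeval y P with hz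
  have hval : L.val (aeval y P) = aeval x P := by
    rw [haev, haev, map_sum]
    refine Finset.sum_congr rfl (fun e _ => ?_)
    rw [zsmul_eq_mul, zsmul_eq_mul, map_mul, map_intCast, Finsupp.prod, Finsupp.prod, map_prod]
    simp only [map_pow]
    rfl
  have hvz : L.val z = (D : ℂ) ^ d * aeval x P := by
    rw [hz, zsmul_eq_mul, map_mul, hval]
    congr 1
    simp
  have hz0 : z ≠ 0 := by
    intro h0
    have h1 : L.val z = 0 := by rw [h0, map_zero]
    rw [hvz, mul_eq_zero] at h1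
    rcases h1 with h1 | h1
    · exact pow_ne_zero d (Int.cast_ne_zero.2 hD0) h1
    · exact hne h1
  have hint : IsIntegral ℤ (Algebra.norm ℚ z) := Algebra.isIntegral_norm ℚ (hPint P hP)
  obtain ⟨k, hk⟩ := IsIntegrallyClosed.isIntegral_iff.1 hint
  have hk0 : k ≠ 0 := by
    rintro rfl
    rw [map_zero] at hk
    exact hz0 ((Algebra.norm_eq_zero_iff (R := ℚ)).1 hk.symm)
  have hprod : (k : ℂ) = ∏ σ : L →ₐ[ℚ] ℂ, σ z := by
    rw [← Algebra.norm_eq_prod_embeddings ℚ ℂ z, ← hk]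
    simp
  have h1 : (1 : ℝ) ≤ ∏ σ : L →ₐ[ℚ] ℂ, ‖σ z‖ := by
    rw [← norm_prod, ← hprod, Complex.norm_intCast]
    exact_mod_cast Int.one_le_abs hk0
  have hcard : ∏ σ ∈ (Finset.univ : Finset (L →ₐ[ℚ] ℂ)).erase L.val, ‖σ z‖ ≤
      (max 1 B * h) ^ (Fintype.card (L →ₐ[ℚ] ℂ)) := by
    have h2 : ∏ σ ∈ (Finset.univ : Finset (L →ₐ[ℚ] ℂ)).erase L.val, ‖σ z‖ ≤
        ∏ _σ ∈ (Finset.univ : Finset (L →ₐ[ℚ] ℂ)).erase L.val, (max 1 B * h) := by
      refine Finset.prod_le_prod (fun _ _ => norm_nonneg _) (fun σ _ => ?_)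
      exact (hbd P h hP hh hc σ).trans (mul_le_mul_of_nonneg_right (le_max_right _ _) (by linarith))
    refine h2.trans ?_
    rw [Finset.prod_const]
    refine pow_le_pow_right₀ ?_ ?_
    · exact one_le_mul_of_one_le_of_one_le (le_max_left _ _) hh
    · exact (Finset.card_le_univ _)
  rw [← Finset.mul_prod_erase Finset.univ (fun σ : L →ₐ[ℚ] ℂ => ‖σ z‖) (Finset.mem_univ L.val)] at h1
  have h3 : ‖L.val z‖ = |(D : ℝ)| ^ d * ‖aeval x P‖ := by
    rw [hvz, norm_mul, norm_pow, Complex.norm_intCast]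
  calc (1 : ℝ) ≤ ‖L.val z‖ * ∏ σ ∈ (Finset.univ : Finset (L →ₐ[ℚ] ℂ)).erase L.val, ‖σ z‖ := h1
    _ ≤ ‖L.val z‖ * (max 1 B * h) ^ (Fintype.card (L →ₐ[ℚ] ℂ)) :=
        mul_le_mul_of_nonneg_left hcard (norm_nonneg _)
    _ = _ := by rw [h3, mul_pow]; ring

/-- Algebraic tuples satisfy polynomial Diophantine bounds. -/
theorem isDio_of_algebraic {m : ℕ} (x : Fin m → ℂ) (hx : ∀ i, IsAlgebraic ℚ (x i)) :
    IsDio x := by
  intro d
  obtain ⟨n, C, hC, h⟩ := algebraic_liouville x hx d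
  refine ⟨max n ⌈C⌉₊, fun P hh hP h1 hc hne => ?_⟩
  refine (h P hh hP h1 hc hne).trans (mul_le_mul_of_nonneg_right ?_ (norm_nonneg _))
  refine mul_le_mul ?_ (pow_le_pow_right₀ h1 (le_max_left _ _)) (by positivity) (Nat.cast_nonneg _)
  exact (Nat.le_ceil C).trans (by exact_mod_cast le_max_right _ _)

end MP2794d1
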