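import Pool.Agent.Lib.MP_2794d1_ag.U00

/-! Definitions for the theorem on cusps whose limit Hodge filtration satisfies polynomial
Diophantine bounds. -/

namespace MP2794d1

open Matrix Complex Filter Topology

/-- The tuple `x` satisfies polynomial Diophantine bounds: for every `d` there is `K` such that
`|P(x)| ≥ 1 / (K h ^ K)` for all integral polynomials `P` of total degree at most `d`, with
coefficients of absolute value at most `h`, `h ≥ 1`, and with `P(x) ≠ 0`. -/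
def IsDio {m : ℕ} (x : Fin m → ℂ) : Prop :=
  ∀ d : ℕ, ∃ K : ℕ, ∀ (P : MvPolynomial (Fin m) ℤ) (h : ℝ), P.totalDegree ≤ d → 1 ≤ h →
    (∀ s, |((MvPolynomial.coeff s P : ℤ) : ℝ)| ≤ h) → MvPolynomial.aeval x P ≠ 0 →
    1 ≤ K * h ^ K * ‖MvPolynomial.aeval x P‖

/-- `Fl` is the limit Hodge filtration at the cusp `i∞`: for every `p` the subspaces
`exp (-zN) F^p_z` have bases (the columns of `W z`) which converge, as `Im z → ∞`, to a basis of
`Fl p`. -/
def IsLimitFiltration {n : ℕ} (V : PolVHS n) (N : Matrix (Fin n) (Fin n) ℚ)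
    (Fl : ℤ → Submodule ℂ (Fin n → ℂ)) : Prop :=
  ∀ p, ∃ (r : ℕ) (W : ℂ → Matrix (Fin n) (Fin r) ℂ) (W0 : Matrix (Fin n) (Fin r) ℂ) (a : ℝ),
    LinearIndependent ℂ W0ᵀ ∧ Fl p = LinearMap.range W0.mulVecLin ∧
    (∀ z : ℂ, a < z.im → V.F p z = LinearMap.range (uexp (cm N) z * W z).mulVecLin) ∧
    ∀ i j, Tendsto (fun z => W z i j) (comap Complex.im atTop) (𝓝 (W0 i j))

/-- The subspace `F` of `ℂ^n` is spanned by vectors with coordinates in the ring `ℚ[x]`. -/
def SpannedOver {m n : ℕ} (x : Fin m → ℂ) (F : Submodule ℂ (Fin n → ℂ)) : Prop :=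
  ∃ S : Set (Fin n → ℂ), (∀ v ∈ S, ∀ i, v i ∈ Algebra.adjoin ℚ (Set.range x)) ∧
    F = Submodule.span ℂ S

/-- The flag `exp (wN) Fl` is, for some complex number `w`, defined over `ℚ[x]`, where `x` is a tuple
of algebraic numbers, or of complex numbers satisfying polynomial Diophantine bounds. -/
def IsDioFlag {n : ℕ} (N : Matrix (Fin n) (Fin n) ℚ) (Fl : ℤ → Submodule ℂ (Fin n → ℂ)) : Prop :=
  ∃ (m : ℕ) (x : Fin m → ℂ) (w : ℂ), ((∀ i, IsAlgebraic ℚ (x i)) ∨ IsDio x) ∧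
    ∀ p, SpannedOver x ((Fl p).map (uexp (cm N) w).mulVecLin)

end MP2794d1
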