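import Pool.Agent.Lib.MP_2794d1_ag.Base
import Pool.Agent.Lib.MP_2794d1_ag.DL.Defs

/-! Definitions: relations between the Pluecker coordinates of the steps of a flag. -/

namespace MP2794d1

open Matrix Complex Filter Topology

/-- Index type of the Pluecker coordinates of the steps `F^p`, `lo ≤ p ≤ hi` (outside this interval
`F^p` is everything or zero); `r p` is the rank of `F^p`, and the Pluecker coordinates of a subspace
with basis the columns of an `n × r` matrix are its `r × r` minors, indexed by functions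
`Fin r → Fin n`. -/
abbrev PK {n : ℕ} (V : PolVHS n) (r : ℤ → ℕ) : Type :=
  Σ p : ↥(Finset.Icc V.lo V.hi), (Fin (r p) → Fin n)

/-- The function `R` of the Pluecker coordinates is multihomogeneous of multidegree `d`: separately
homogeneous of degree `d p` in the Pluecker coordinates of `F^p`, for every `p`. -/
def Homog {n : ℕ} {V : PolVHS n} {r : ℤ → ℕ} (R : (PK V r → ℂ) → ℂ)
    (d : ↥(Finset.Icc V.lo V.hi) → ℕ) : Prop :=
  ∀ (l : ↥(Finset.Icc V.lo V.hi) → ℂ) (M : PK V r → ℂ),
    R (fun k => l k.1 * M k) = (∏ p, l p ^ d p) * R M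

/-- The relation `R = 0` holds for the Pluecker coordinates of the flag `Fl`, computed with any bases
`W p` of the subspaces `Fl p`. -/
def Holds {n : ℕ} {V : PolVHS n} {r : ℤ → ℕ} (R : (PK V r → ℂ) → ℂ)
    (Fl : ℤ → Submodule ℂ (Fin n → ℂ)) : Prop :=
  ∀ W : (p : ↥(Finset.Icc V.lo V.hi)) → Matrix (Fin n) (Fin (r p)) ℂ,
    (∀ p, LinearIndependent ℂ (W p)ᵀ ∧ Fl p = LinearMap.range (W p).mulVecLin) →
    R (fun k => minor (W k.1) k.2) = 0

/-- The polynomial function of a polynomial with coefficients in `ℚ[x]`. -/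
noncomputable def fn {m : ℕ} {x : Fin m → ℂ} {κ : Type}
    (R : MvPolynomial κ (Algebra.adjoin ℚ (Set.range x))) (M : κ → ℂ) : ℂ :=
  MvPolynomial.aeval M R

end MP2794d1
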