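import Pool.Agent.Lib.MP_2794d1_ag.C02
import Pool.Agent.Lib.MP_2794d1_ag.C05

/-!
DL.Z2: functions `g(z, q) = ∑ z^i h_i(q)` with `h_i` analytic at `0`.
-/

namespace MP2794d1

open Matrix Complex Filter Topology

/-- `g(z, q) = ∑ z^i h_i(q)`, a finite sum with `h_i` analytic at `0`. -/
def Z2 (g : ℂ → ℂ → ℂ) : Prop :=
  ∃ (K : ℕ) (h : ℕ → ℂ → ℂ), (∀ i, AnalyticAt ℂ (h i) 0) ∧
    ∀ z q, g z q = ∑ i ∈ Finset.range K, z ^ i * h i q

theorem Z2.zfun {g : ℂ → ℂ → ℂ} (hg : Z2 g) : Zfun (fun z => g z (qq z)) := by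
  obtain ⟨K, h, h1, h2⟩ := hg
  exact ⟨K, h, h1, fun z => h2 z (qq z)⟩

theorem Z2.mono (i : ℕ) (h : ℂ → ℂ) (hh : AnalyticAt ℂ h 0) : Z2 (fun z q => z ^ i * h q) := by
  refine ⟨i + 1, fun j => if j = i then h else fun _ => 0, ?_, ?_⟩
  · intro j
    by_cases hj : j = i
    · simp only [hj, if_true]; exact hh
    · simp only [hj, if_false]; exact analyticAt_const
  · intro z q
    rw [Finset.sum_eq_single i]
    · simp
    · intro b _ hb
      simp [hb]
    · intro hi
      exact absurd (Finset.mem_range.mpr (Nat.lt_succ_self i)) hi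

theorem Z2.const (c : ℂ) : Z2 (fun _ _ => c) := by
  have h := Z2.mono 0 (fun _ => c) analyticAt_const
  simpa using h

theorem Z2.ext {f : ℂ → ℂ → ℂ} (hf : Z2 f) : ∃ (K : ℕ) (h : ℕ → ℂ → ℂ),
    (∀ i, AnalyticAt ℂ (h i) 0) ∧
    ∀ K', K ≤ K' → ∀ z q, f z q = ∑ i ∈ Finset.range K', z ^ i * h i q := by
  obtain ⟨K, h, hh, hfz⟩ := hf
  refine ⟨K, fun i => if i < K then h i else fun _ => 0, ?_, ?_⟩
  · intro i
    by_cases hi : i < K
    · simp only [hi, if_true]; exact hh i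
    · simp only [hi, if_false]; exact analyticAt_const
  · intro K' hK' z q
    rw [hfz z q]
    rw [← Finset.sum_subset (Finset.range_subset_range.mpr hK')]
    · apply Finset.sum_congr rfl
      intro i hi
      rw [Finset.mem_range] at hi
      simp [hi]
    · intro i _ hi
      rw [Finset.mem_range] at hi
      simp [hi]

theorem Z2.add {f g : ℂ → ℂ → ℂ} (hf : Z2 f) (hg : Z2 g) : Z2 (fun z q => f z q + g z q) := by
  obtain ⟨K, h, hh, hfz⟩ := Z2.ext hf
  obtain ⟨K', h', hh', hgz⟩ := Z2.ext hg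
  refine ⟨max K K', fun i => h i + h' i, fun i => (hh i).add (hh' i), ?_⟩
  intro z q
  show f z q + g z q = _
  rw [hfz (max K K') (le_max_left _ _) z q, hgz (max K K') (le_max_right _ _) z q,
    ← Finset.sum_add_distrib]
  apply Finset.sum_congr rfl
  intro i _
  show z ^ i * h i q + z ^ i * h' i q = z ^ i * (h i q + h' i q)
  ring

theorem Z2.sum {ι : Type} (s : Finset ι) (f : ι → ℂ → ℂ → ℂ) (hf : ∀ i ∈ s, Z2 (f i)) :
    Z2 (fun z q => ∑ i ∈ s, f i z q) := by
  classical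
  induction s using Finset.induction_on with
  | empty => simpa using Z2.const 0
  | insert a s ha ih =>
    have h1 : Z2 (f a) := hf a (Finset.mem_insert_self a s)
    have h2 := ih (fun i hi => hf i (Finset.mem_insert_of_mem hi))
    have h3 := Z2.add h1 h2
    have h4 : (fun z q => ∑ i ∈ insert a s, f i z q) = fun z q => f a z q + ∑ i ∈ s, f i z q := by
      funext z q
      rw [Finset.sum_insert ha]
    rw [h4]
    exact h3

theorem Z2.mul {f g : ℂ → ℂ → ℂ} (hf : Z2 f) (hg : Z2 g) : Z2 (fun z q => f z q * g z q) := by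
  obtain ⟨K, h, hh, hfz⟩ := hf
  obtain ⟨K', h', hh', hgz⟩ := hg
  have h1 : (fun z q => f z q * g z q) = fun z q => ∑ i ∈ Finset.range K, ∑ j ∈ Finset.range K',
      z ^ (i + j) * (fun q => h i q * h' j q) q := by
    funext z q
    rw [hfz z q, hgz z q, Finset.sum_mul_sum]
    apply Finset.sum_congr rfl
    intro i _
    apply Finset.sum_congr rfl
    intro j _
    show _ = z ^ (i + j) * (h i q * h' j q)
    rw [pow_add]; ring
  rw [h1]
  apply Z2.sum (Finset.range K)
    (fun i z q => ∑ j ∈ Finset.range K', z ^ (i + j) * (fun q => h i q * h' j q) q)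
  intro i _
  apply Z2.sum (Finset.range K')
    (fun j z q => z ^ (i + j) * (fun q => h i q * h' j q) q)
  intro j _
  exact Z2.mono (i + j) (fun q => h i q * h' j q) ((hh i).mul (hh' j))

theorem Z2.aeval (p : Polynomial ℚ) : Z2 (fun z _ => Polynomial.aeval z p) := by
  have h : (fun (z : ℂ) (_ : ℂ) => Polynomial.aeval z p) =
      fun z q => ∑ i ∈ Finset.range (p.natDegree + 1),
        z ^ i * (fun _ : ℂ => ((p.coeff i : ℚ) : ℂ)) q := by
    funext z q
    rw [Polynomial.aeval_eq_sum_range]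
    refine Finset.sum_congr rfl fun i _ => ?_
    rw [Algebra.smul_def]
    exact mul_comm _ _
  rw [h]
  exact Z2.sum _ _ fun i _ => Z2.mono i _ analyticAt_const

theorem Z2.vec {ι : Type} [Fintype ι] [DecidableEq ι] (G : PolyGroup ι) (Mh : ℂ → ι → ℂ)
    (hM : ∀ i, AnalyticAt ℂ (fun q => Mh q i) 0) (j : ι) :
    Z2 (fun z q => (G.E z *ᵥ Mh q) j) := by
  have h : (fun z q => (G.E z *ᵥ Mh q) j) =
      fun z q => ∑ i ∈ Finset.univ, Polynomial.aeval z (G.P j i) * Mh q i := by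
    funext z q
    rfl
  rw [h]
  refine Z2.sum _ _ fun i _ => Z2.mul (Z2.aeval _) ?_
  have := Z2.mono 0 (fun q => Mh q i) (hM i)
  simpa using this

/-- If `g(z, 0) = 0` for all `z` then `g(z, exp(2πiz))` is exponentially small. -/
theorem Z2.small {g : ℂ → ℂ → ℂ} (hg : Z2 g) (h0 : ∀ z, g z 0 = 0) :
    ∃ a K : ℝ, 0 ≤ K ∧ ∀ z : ℂ, |z.re| ≤ 1 → a < z.im → ‖g z (qq z)‖ ≤ K * Real.exp (-z.im) := by
  obtain ⟨D, h, hh, hg⟩ := hg
  choose a K hK h1 using fun i : ℕ => C05_one (Polynomial.X ^ i) (h i) (hh i)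
  refine ⟨∑ i ∈ Finset.range D, |a i|, ∑ i ∈ Finset.range D, K i,
    Finset.sum_nonneg fun i _ => hK i, fun z hre him => ?_⟩
  have h2 : g z (qq z) = ∑ i ∈ Finset.range D,
      Polynomial.aeval z (Polynomial.X ^ i : Polynomial ℚ) * (h i (qq z) - h i 0) := by
    have h3 := h0 z
    rw [hg z 0] at h3
    have h4 : g z (qq z) = (∑ i ∈ Finset.range D, z ^ i * h i (qq z)) -
        ∑ i ∈ Finset.range D, z ^ i * h i 0 := by rw [h3, sub_zero, hg z (qq z)]
    rw [h4, ← Finset.sum_sub_distrib]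
    refine Finset.sum_congr rfl fun i _ => ?_
    rw [map_pow, Polynomial.aeval_X]
    ring
  rw [h2, Finset.sum_mul]
  refine (norm_sum_le _ _).trans (Finset.sum_le_sum fun i hi => h1 i z hre ?_)
  refine lt_of_le_of_lt ?_ him
  calc a i ≤ |a i| := le_abs_self _
    _ ≤ ∑ i ∈ Finset.range D, |a i| :=
        Finset.single_le_sum (f := fun i => |a i|) (fun i _ => abs_nonneg _) hi

end MP2794d1
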