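import Pool.Agent.Lib.MP_2794d1_ag.DL.Eig
import Pool.Agent.Lib.MP_2794d1_ag.DL.Z2

/-!
DL.Rel: polynomials in coordinates indexed by `κ` with coefficients in `ℚ[x]`.
-/

namespace MP2794d1

open Matrix Complex Filter Topology

/-- The functions on `κ → ℂ` which are polynomials in the coordinates, with coefficients in `ℚ[x]`. -/
noncomputable def relSub {m : ℕ} (x : Fin m → ℂ) (κ : Type) : Subalgebra ℚ ((κ → ℂ) → ℂ) :=
  Algebra.adjoin ℚ (Set.range (fun (k : κ) (M : κ → ℂ) => M k) ∪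
    Set.range (fun (j : Fin m) (_ : κ → ℂ) => x j))

theorem relSub.coord {m : ℕ} (x : Fin m → ℂ) {κ : Type} (k : κ) :
    (fun M : κ → ℂ => M k) ∈ relSub x κ :=
  Algebra.subset_adjoin (Or.inl ⟨k, rfl⟩)

theorem relSub.const {m : ℕ} (x : Fin m → ℂ) {κ : Type} (a : ℂ)
    (ha : a ∈ Algebra.adjoin ℚ (Set.range x)) : (fun _ : κ → ℂ => a) ∈ relSub x κ := by
  induction ha using Algebra.adjoin_induction with
  | mem y hy =>
    obtain ⟨j, rfl⟩ := hy
    exact Algebra.subset_adjoin (Or.inr ⟨j, rfl⟩)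
  | algebraMap q => exact Subalgebra.algebraMap_mem _ q
  | add y z _ _ h1 h2 => exact Subalgebra.add_mem _ h1 h2
  | mul y z _ _ h1 h2 => exact Subalgebra.mul_mem _ h1 h2

/-- values at tuples of families of eigenvalues -/
theorem relSub.deig {m : ℕ} {x : Fin m → ℂ} {κ : Type} {I : Type} {H : I → ℝ} (hH : ∀ i, 1 ≤ H i)
    (y : κ → I → ℂ) (hy : ∀ k, DEig x H (y k)) {R : (κ → ℂ) → ℂ} (hR : R ∈ relSub x κ) :
    DEig x H (fun i => R (fun k => y k i)) := by
  induction hR using Algebra.adjoin_induction with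
  | mem R hR =>
    rcases hR with ⟨k, rfl⟩ | ⟨j, rfl⟩
    · exact hy k
    · exact DEig.dio (DioFam.gen hH j)
  | algebraMap q => exact DEig.dio (DioFam.const hH q)
  | add R R' _ _ h1 h2 => exact DEig.add hH h1 h2
  | mul R R' _ _ h1 h2 => exact DEig.mul hH h1 h2

/-- values at tuples of functions `Z2` -/
theorem relSub.z2 {m : ℕ} {x : Fin m → ℂ} {κ : Type} (g : κ → ℂ → ℂ → ℂ) (hg : ∀ k, Z2 (g k))
    {R : (κ → ℂ) → ℂ} (hR : R ∈ relSub x κ) : Z2 (fun z q => R (fun k => g k z q)) := by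
  induction hR using Algebra.adjoin_induction with
  | mem R hR =>
    rcases hR with ⟨k, rfl⟩ | ⟨j, rfl⟩
    · exact hg k
    · exact Z2.const _
  | algebraMap q => exact Z2.const _
  | add R R' _ _ h1 h2 => exact Z2.add h1 h2
  | mul R R' _ _ h1 h2 => exact Z2.mul h1 h2

end MP2794d1
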