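import Pool.Agent.Lib.MP_2794d1_ag.B01
import Pool.Agent.Lib.MP_2794d1_ag.B08
import Pool.Agent.Lib.MP_2794d1_ag.C11
import Pool.Agent.Lib.MP_2794d1_ag.OC.OC2
import Pool.Agent.Lib.MP_2794d1_ag.DL.Rel
import Pool.Agent.Lib.MP_2794d1_ag.DL.RDefs

/-!
DL.Data: the cusp data of a variation, and the Pluecker coordinates of all the steps of the moving flag.
-/

namespace MP2794d1

open Matrix Complex Filter Topology

/-- frames of the Hodge filtration near the cusp -/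
structure CuspData {n : ℕ} (V : PolVHS n) (N : Matrix (Fin n) (Fin n) ℚ) where
  nil : N ^ n = 0
  r : ℤ → ℕ
  W : (p : ℤ) → ℂ → Matrix (Fin n) (Fin (r p)) ℂ
  a : ℤ → ℝ
  hol : ∀ p i j, AnalyticAt ℂ (fun q => W p q i j) 0
  ind : ∀ p, LinearIndependent ℂ (W p 0)ᵀ
  eq : ∀ p, ∀ z : ℂ, a p < z.im → V.F p z = LinearMap.range (uexp (cm N) z * W p (qq z)).mulVecLin

/-- The Pluecker coordinates of `exp(zN) W(q)`. -/
noncomputable def CuspData.pl {n : ℕ} {V : PolVHS n} {N : Matrix (Fin n) (Fin n) ℚ}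
    (D : CuspData V N) (z q : ℂ) : PK V D.r → ℂ :=
  fun k => minor (uexp (cm N) z * D.W k.1 q) k.2

theorem CuspData.pl_z2 {n : ℕ} {V : PolVHS n} {N : Matrix (Fin n) (Fin n) ℚ}
    (D : CuspData V N) (k : PK V D.r) : Z2 (fun z q => D.pl z q k) := by
  obtain ⟨G, hG⟩ := exists_tensGroup (D.r k.1) N D.nil
  have h1 := Z2.vec G (fun q g => minor (D.W k.1 q) g)
    (fun g => C11_minor_analytic (D.W k.1) (D.hol k.1) g) k.2
  have h2 : (fun z q => D.pl z q k) =
      fun z q => (G.E z *ᵥ (fun g => minor (D.W k.1 q) g)) k.2 := by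
    funext z q
    rw [C11_key N G hG]
    rfl
  rw [h2]
  exact h1

/-- every step of the flag has a Pluecker coordinate bounded below in the strip -/
theorem CuspData.lower {n : ℕ} {V : PolVHS n} {N : Matrix (Fin n) (Fin n) ℚ}
    (D : CuspData V N) (p : ↥(Finset.Icc V.lo V.hi)) :
    ∃ (f : Fin (D.r p) → Fin n) (ε : ℝ) (a : ℝ), 0 < ε ∧ ∀ z : ℂ, |z.re| ≤ 1 → a < z.im →
      ε ≤ ‖D.pl z (qq z) ⟨p, f⟩‖ := by
  obtain ⟨G, hG⟩ := exists_tensGroup (D.r p) N D.nil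
  obtain ⟨f, hf⟩ := exists_minor_ne (D.W p 0) (D.ind p)
  have hk : ∀ (y : ℂ) (A : Matrix (Fin n) (Fin (D.r p)) ℂ),
      G.E y *ᵥ (fun g => minor A g) = fun f => minor (uexp (cm N) y * A) f := fun y A =>
    C11_key N G hG y A
  have h1 := OC.ZP.vec G (fun q g => minor (D.W p q) g)
    (fun g => C11_minor_analytic (D.W p) (D.hol p) g) f
  have hne : OC.vp G (fun g => minor (D.W p 0) g) f ≠ 0 := by
    intro h
    have h1 := OC.vp_eval G (fun g => minor (D.W p 0) g) f 0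
    rw [h, hk, uexp_zero, Matrix.one_mul, Polynomial.eval_zero] at h1
    exact hf h1.symm
  obtain ⟨ε, hε, hlow⟩ := h1.lower hne
  obtain ⟨a, ha⟩ := zl_ev.1 hlow
  refine ⟨f, ε, a, hε, fun z hre him => ?_⟩
  have h2 := ha z hre him
  have h3 : (G.E z *ᵥ fun g => minor (D.W p (qq z)) g) f = D.pl z (qq z) ⟨p, f⟩ :=
    congrFun (hk z (D.W p (qq z))) f
  rw [← h3]
  exact h2

end MP2794d1
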