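import Pool.Agent.Lib.MP_2794d1_ag.F03
import Pool.Agent.Lib.MP_2794d1_ag.B05
import Pool.Agent.Lib.MP_2794d1_ag.DL.Data

/-!
DL.Cont: a relation that holds on an open set holds everywhere.
-/

namespace MP2794d1

open Matrix Complex Filter Topology

/-- Two frames of the same subspace have proportional minors. -/
theorem minor_frames {n r : ℕ} (W W' : Matrix (Fin n) (Fin r) ℂ) (_hW : LinearIndependent ℂ Wᵀ)
    (hW' : LinearIndependent ℂ W'ᵀ)
    (h : LinearMap.range W.mulVecLin = LinearMap.range W'.mulVecLin) :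
    ∃ c : ℂ, c ≠ 0 ∧ ∀ f, minor W' f = c * minor W f := by
  -- `W' = W * g`
  have h1 : ∀ j : Fin r, ∃ g : Fin r → ℂ, W *ᵥ g = W'.col j := by
    intro j
    have h2 : W'.col j ∈ LinearMap.range W'.mulVecLin := ⟨Pi.single j 1, by
      rw [Matrix.mulVecLin_apply, Matrix.mulVec_single_one]⟩
    rw [← h] at h2
    obtain ⟨g, hg⟩ := h2
    exact ⟨g, hg⟩
  choose g hg using h1
  have h3 : W' = W * (Matrix.of g)ᵀ := by
    ext i j
    have := congrFun (hg j) i
    rw [Matrix.col_apply] at this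
    rw [← this, Matrix.mul_apply]
    rfl
  have h4 : ∀ f, minor W' f = ((Matrix.of g)ᵀ).det * minor W f := by
    intro f
    unfold minor
    rw [h3]
    have h5 : (W * (Matrix.of g)ᵀ).submatrix f id = W.submatrix f id * (Matrix.of g)ᵀ := rfl
    rw [h5, Matrix.det_mul, mul_comm]
  obtain ⟨f0, hf0⟩ := exists_minor_ne W' hW'
  refine ⟨((Matrix.of g)ᵀ).det, fun h0 => hf0 ?_, h4⟩
  rw [h4, h0, zero_mul]

/-- for a multihomogeneous relation one frame is enough -/
theorem holds_iff {n : ℕ} {V : PolVHS n} {r : ℤ → ℕ} {R : (PK V r → ℂ) → ℂ}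
    {d : ↥(Finset.Icc V.lo V.hi) → ℕ} (hd : Homog R d) (Fl : ℤ → Submodule ℂ (Fin n → ℂ))
    (W : (p : ↥(Finset.Icc V.lo V.hi)) → Matrix (Fin n) (Fin (r p)) ℂ)
    (hW : ∀ p, LinearIndependent ℂ (W p)ᵀ ∧ Fl p = LinearMap.range (W p).mulVecLin) :
    Holds R Fl ↔ R (fun k => minor (W k.1) k.2) = 0 := by
  constructor
  · intro h
    exact h W hW
  · intro h W' hW'
    choose c hc0 hc using fun p => minor_frames (W p) (W' p) (hW p).1 (hW' p).1
      ((hW p).2.symm.trans (hW' p).2)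
    have h1 : (fun k : PK V r => minor (W' k.1) k.2) = fun k => c k.1 * minor (W k.1) k.2 := by
      funext k
      exact hc k.1 k.2
    rw [h1, hd, h, mul_zero]

theorem minor_analyticAt {n r : ℕ} (W : ℂ → Matrix (Fin n) (Fin r) ℂ) (z : ℂ)
    (hW : ∀ i j, AnalyticAt ℂ (fun q => W q i j) z) (f : Fin r → Fin n) :
    AnalyticAt ℂ (fun q => minor (W q) f) z := by
  have h1 : (fun q => minor (W q) f) =
      fun q => ∑ σ : Equiv.Perm (Fin r), ((Equiv.Perm.sign σ : ℤ) : ℂ) *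
        ∏ i, W q (f (σ i)) i := by
    funext q
    unfold minor
    rw [Matrix.det_apply']
    rfl
  rw [h1]
  refine Finset.analyticAt_fun_sum _ fun σ _ => ?_
  exact analyticAt_const.mul (Finset.analyticAt_fun_prod _ fun i _ => hW _ _)

/-- relations are analytic -/
theorem relSub.analyticAt {m : ℕ} {x : Fin m → ℂ} {κ : Type} (g : κ → ℂ → ℂ) (z : ℂ)
    (hg : ∀ k, AnalyticAt ℂ (g k) z) {R : (κ → ℂ) → ℂ} (hR : R ∈ relSub x κ) :
    AnalyticAt ℂ (fun y => R (fun k => g k y)) z := by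
  induction hR using Algebra.adjoin_induction with
  | mem R hR =>
    rcases hR with ⟨k, rfl⟩ | ⟨j, rfl⟩
    · exact hg k
    · exact analyticAt_const
  | algebraMap q => exact analyticAt_const
  | add R R' _ _ h1 h2 => exact h1.add h2
  | mul R R' _ _ h1 h2 => exact h1.mul h2

theorem frame_rank {n r : ℕ} (W : Matrix (Fin n) (Fin r) ℂ) (hW : LinearIndependent ℂ Wᵀ) :
    Module.finrank ℂ (LinearMap.range W.mulVecLin) = r := by
  have hinj : Function.Injective W.mulVecLin := by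
    have : Function.Injective W.mulVec := by
      rw [Matrix.mulVec_injective_iff]; exact hW
    exact this
  rw [LinearMap.finrank_range_of_inj hinj, Module.finrank_fin_fun]

theorem frame_cast {n r r' : ℕ} (h : r' = r) (F : ℂ → Submodule ℂ (Fin n → ℂ))
    (W : ℂ → Matrix (Fin n) (Fin r') ℂ) (z₀ : ℂ)
    (hW : ∀ i j, AnalyticAt ℂ (fun z => W z i j) z₀)
    (hev : ∀ᶠ z in 𝓝 z₀, LinearIndependent ℂ (W z)ᵀ ∧ F z = LinearMap.range (W z).mulVecLin) :
    ∃ W' : ℂ → Matrix (Fin n) (Fin r) ℂ, (∀ i j, AnalyticAt ℂ (fun z => W' z i j) z₀) ∧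
      ∀ᶠ z in 𝓝 z₀, LinearIndependent ℂ (W' z)ᵀ ∧ F z = LinearMap.range (W' z).mulVecLin := by
  subst h
  exact ⟨W, hW, hev⟩

theorem holds_continuation {n : ℕ} (V : PolVHS n) {r : ℤ → ℕ} {m : ℕ} {x : Fin m → ℂ}
    {R : (PK V r → ℂ) → ℂ} (hR : R ∈ relSub x (PK V r))
    {d : ↥(Finset.Icc V.lo V.hi) → ℕ} (hd : Homog R d) (a : ℝ)
    (h : ∀ y : ℂ, a < y.im → Holds R (fun p => V.F p y)) :
    ∀ y : ℂ, 0 < y.im → Holds R (fun p => V.F p y) := by
  classical
  refine continuation (fun z => Holds R (fun p => V.F p z)) ?_ {y : ℂ | max a 0 < y.im}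
    (isOpen_lt continuous_const Complex.continuous_im) ⟨⟨0, max a 0 + 1⟩, by
      show max a 0 < max a 0 + 1
      linarith⟩ (fun y hy => lt_of_le_of_lt (le_max_right _ _) hy)
    (fun y hy => h y (lt_of_le_of_lt (le_max_left _ _) hy))
  intro z₀ hz₀
  have hol : ∀ p : ↥(Finset.Icc V.lo V.hi), ∃ (r : ℕ) (W : ℂ → Matrix (Fin n) (Fin r) ℂ),
      (∀ i j, AnalyticAt ℂ (fun z => W z i j) z₀) ∧
      ∀ᶠ z in 𝓝 z₀, LinearIndependent ℂ (W z)ᵀ ∧ V.F p z = LinearMap.range (W z).mulVecLin :=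
    fun p => V.hol p z₀ hz₀
  choose r' W hWan hW using hol
  by_cases hr : ∀ p : ↥(Finset.Icc V.lo V.hi), r' p = r p
  · -- frames of the right size
    choose W' hWan' hW' using fun p : ↥(Finset.Icc V.lo V.hi) =>
      frame_cast (hr p) (V.F p) (W p) z₀ (hWan p) (hW p)
    refine ⟨Unit, inferInstance, fun _ y => R (fun k => minor (W' k.1 y) k.2), fun _ => ?_, ?_⟩
    · exact relSub.analyticAt (fun (k : PK V r) y => minor (W' k.1 y) k.2) z₀
        (fun k => minor_analyticAt (W' k.1) z₀ (hWan' k.1) k.2) hR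
    · have hall : ∀ᶠ z in 𝓝 z₀, ∀ p, LinearIndependent ℂ (W' p z)ᵀ ∧
          V.F p z = LinearMap.range (W' p z).mulVecLin := Filter.eventually_all.2 hW'
      filter_upwards [hall] with z hz
      rw [holds_iff hd (fun p => V.F p z) (fun p => W' p z) hz]
      exact ⟨fun h _ => h, fun h => h ()⟩
  · push Not at hr
    obtain ⟨p, hp⟩ := hr
    refine ⟨Empty, inferInstance, fun k => k.elim, fun k => k.elim, ?_⟩
    filter_upwards [hW p] with z hz
    constructor
    · intro _ k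
      exact k.elim
    · intro _ W'' hW''
      exfalso
      apply hp
      have h1 := frame_rank (W p z) hz.1
      have h2 := frame_rank (W'' p) (hW'' p).1
      have h3 : V.F p z = LinearMap.range (W'' p).mulVecLin := (hW'' p).2
      rw [← hz.2] at h1
      rw [← h3] at h2
      exact h1.symm.trans h2

/-- the translates of the limit flag -/
theorem holds_orbit {n : ℕ} {V : PolVHS n} {N : Matrix (Fin n) (Fin n) ℚ} (D : CuspData V N)
    {R : (PK V D.r → ℂ) → ℂ} {d : ↥(Finset.Icc V.lo V.hi) → ℕ} (hd : Homog R d) (w : ℂ) :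
    Holds R (fun p => (LinearMap.range (D.W p 0).mulVecLin).map (uexp (cm N) w).mulVecLin) ↔
      R (D.pl w 0) = 0 := by
  have hinj : ∀ v v' : Fin n → ℂ, uexp (cm N) w *ᵥ v = uexp (cm N) w *ᵥ v' → v = v' := by
    intro v v' h
    have h1 := congrArg (fun v => uexp (cm N) (-w) *ᵥ v) h
    simp only [Matrix.mulVec_mulVec] at h1
    rw [uexp_neg_mul _ (cm_pow N D.nil), Matrix.one_mulVec, Matrix.one_mulVec] at h1
    exact h1
  refine holds_iff hd _ (fun p => uexp (cm N) w * D.W p 0) fun p => ⟨?_, ?_⟩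
  · have h1 : Function.Injective (uexp (cm N) w * D.W p 0).mulVec := by
      intro v v' h
      have h2 : Function.Injective (D.W p 0).mulVec := by
        rw [Matrix.mulVec_injective_iff]; exact D.ind p
      apply h2
      apply hinj
      rw [Matrix.mulVec_mulVec, Matrix.mulVec_mulVec]
      exact h
    exact Matrix.mulVec_injective_iff.1 h1
  · rw [Matrix.mulVecLin_mul]
    exact (LinearMap.range_comp _ _).symm

theorem uexp_mul_ind {n r : ℕ} (N : Matrix (Fin n) (Fin n) ℚ) (hN : N ^ n = 0) (w : ℂ)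
    (W : Matrix (Fin n) (Fin r) ℂ) (hW : LinearIndependent ℂ Wᵀ) :
    LinearIndependent ℂ (uexp (cm N) w * W)ᵀ := by
  have h1 : Function.Injective (uexp (cm N) w * W).mulVec := by
    intro v v' h
    have h2 : Function.Injective W.mulVec := by
      rw [Matrix.mulVec_injective_iff]; exact hW
    apply h2
    have h3 := congrArg (fun v => uexp (cm N) (-w) *ᵥ v) h
    simp only [← Matrix.mulVec_mulVec] at h3
    rw [Matrix.mulVec_mulVec _ (uexp (cm N) (-w)), Matrix.mulVec_mulVec _ (uexp (cm N) (-w)),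
      uexp_neg_mul _ (cm_pow N hN), Matrix.one_mulVec, Matrix.one_mulVec] at h3
    exact h3
  exact Matrix.mulVec_injective_iff.1 h1

/-- the frame `W(exp 2πiy)` is a frame high up -/
theorem CuspData.ind_near {n : ℕ} {V : PolVHS n} {N : Matrix (Fin n) (Fin n) ℚ}
    (D : CuspData V N) (p : ℤ) :
    ∃ a : ℝ, ∀ y : ℂ, a < y.im → LinearIndependent ℂ (D.W p (qq y))ᵀ := by
  obtain ⟨f0, hf0⟩ := exists_minor_ne (D.W p 0) (D.ind p)
  have hev : ∀ᶠ q in 𝓝 (0 : ℂ), minor (D.W p q) f0 ≠ 0 :=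
    (C11_minor_analytic (D.W p) (D.hol p) f0).continuousAt.eventually_ne hf0
  obtain ⟨ε, hε, hball⟩ := Metric.eventually_nhds_iff.1 hev
  obtain ⟨a2, ha2⟩ := C11_qq_small ε hε
  refine ⟨a2, fun z hz => linInd_of_minor_ne _ f0 (hball ?_)⟩
  rw [dist_zero_right]
  exact ha2 z hz

theorem holds_near {n : ℕ} {V : PolVHS n} {N : Matrix (Fin n) (Fin n) ℚ} (D : CuspData V N)
    {R : (PK V D.r → ℂ) → ℂ} {d : ↥(Finset.Icc V.lo V.hi) → ℕ} (hd : Homog R d) :
    ∃ a : ℝ, ∀ y : ℂ, a < y.im →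
      (Holds R (fun p => V.F p y) ↔ R (D.pl y (qq y)) = 0) := by
  choose a ha using fun p : ↥(Finset.Icc V.lo V.hi) => D.ind_near p
  obtain ⟨A1, hA1⟩ : ∃ A1 : ℝ, ∀ p : ↥(Finset.Icc V.lo V.hi), max (a p) (D.a p) ≤ A1 := by
    refine ⟨∑ p : ↥(Finset.Icc V.lo V.hi), |max (a p) (D.a p)|, fun p => (le_abs_self _).trans ?_⟩
    exact Finset.single_le_sum (f := fun p : ↥(Finset.Icc V.lo V.hi) => |max (a p) (D.a p)|)
      (fun _ _ => abs_nonneg _) (Finset.mem_univ p)
  refine ⟨A1, fun y hy => holds_iff hd _ (fun p => uexp (cm N) y * D.W p (qq y)) fun p => ?_⟩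
  have h1 := lt_of_le_of_lt (hA1 p) hy
  exact ⟨uexp_mul_ind N D.nil y _ (ha p y (lt_of_le_of_lt (le_max_left _ _) h1)),
    D.eq p y (lt_of_le_of_lt (le_max_right _ _) h1)⟩

/-- One CM point of small height: a relation over `ℚ[x]` on the nilpotent orbit holds everywhere. -/
theorem CuspData.everywhere {n : ℕ} {V : PolVHS n} {N : Matrix (Fin n) (Fin n) ℚ}
    (D : CuspData V N) {m : ℕ} {x : Fin m → ℂ} {R : (PK V D.r → ℂ) → ℂ}
    (hR : R ∈ relSub x (PK V D.r)) {d : ↥(Finset.Icc V.lo V.hi) → ℕ} (hd : Homog R d)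
    (h : ∃ a : ℝ, ∀ y : ℂ, a < y.im → R (D.pl y (qq y)) = 0) :
    ∀ y : ℂ, 0 < y.im → Holds R (fun p => V.F p y) := by
  obtain ⟨a, ha⟩ := h
  obtain ⟨a', ha'⟩ := holds_near D hd
  exact holds_continuation V hR hd (max a a') fun y hy =>
    (ha' y (lt_of_le_of_lt (le_max_right _ _) hy)).2 (ha y (lt_of_le_of_lt (le_max_left _ _) hy))

end MP2794d1
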