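import Pool.Agent.Lib.MP_2794d1_ag.DL.Point
import Pool.Agent.Lib.MP_2794d1_ag.DL.Cont

/-!
DL.Noeth: all relations at once (Hilbert's basis theorem).
-/

namespace MP2794d1

open Matrix Complex Filter Topology

theorem fn_mem {m : ℕ} {x : Fin m → ℂ} {κ : Type}
    (R : MvPolynomial κ (Algebra.adjoin ℚ (Set.range x))) : fn R ∈ relSub x κ := by
  induction R using MvPolynomial.induction_on with
  | C a =>
    have h : fn (MvPolynomial.C a : MvPolynomial κ (Algebra.adjoin ℚ (Set.range x))) =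
        fun _ => (a : ℂ) := by
      funext M
      unfold fn
      rw [MvPolynomial.aeval_C]
      rfl
    rw [h]
    exact relSub.const x (a : ℂ) a.2
  | add p q hp hq =>
    have h : fn (p + q) = fn p + fn q := by
      funext M
      unfold fn
      rw [map_add]
      rfl
    rw [h]
    exact Subalgebra.add_mem _ hp hq
  | mul_X p k hp =>
    have h : fn (p * MvPolynomial.X k) = fn p * fun M => M k := by
      funext M
      unfold fn
      rw [map_mul, MvPolynomial.aeval_X]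
      rfl
    rw [h]
    exact Subalgebra.mul_mem _ hp (relSub.coord x k)

theorem noeth_adjoin {m : ℕ} (x : Fin m → ℂ) :
    IsNoetherianRing (Algebra.adjoin ℚ (Set.range x)) := by
  have h1 : (Algebra.adjoin ℚ (Set.range x)).FG := by
    refine Subalgebra.fg_def.2 ⟨Set.range x, Set.finite_range x, rfl⟩
  have h2 : Algebra.FiniteType ℚ (Algebra.adjoin ℚ (Set.range x)) :=
    (Algebra.adjoin ℚ (Set.range x)).fg_iff_finiteType.1 h1
  exact Algebra.FiniteType.isNoetherianRing ℚ _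

/-- vanishing at a point passes to the ideal -/
theorem fn_span {m : ℕ} {x : Fin m → ℂ} {κ : Type}
    (T : Set (MvPolynomial κ (Algebra.adjoin ℚ (Set.range x)))) (M : κ → ℂ)
    (hT : ∀ R ∈ T, fn R M = 0) (R : MvPolynomial κ (Algebra.adjoin ℚ (Set.range x)))
    (hR : R ∈ Ideal.span T) : fn R M = 0 := by
  have h1 : Ideal.span T ≤ RingHom.ker (MvPolynomial.aeval (R := Algebra.adjoin ℚ (Set.range x)) M) := by
    rw [Ideal.span_le]
    intro R hR
    exact hT R hR
  exact h1 hR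

theorem CuspData.finset {n : ℕ} {V : PolVHS n} {N : Matrix (Fin n) (Fin n) ℚ} (D : CuspData V N)
    {m : ℕ} {x : Fin m → ℂ} (hx : IsDio x) {J : Type} (S : Finset J)
    (R : J → (PK V D.r → ℂ) → ℂ) (hR : ∀ j ∈ S, R j ∈ relSub x (PK V D.r))
    (hd : ∀ j ∈ S, ∃ d, Homog (R j) d) (hv : ∀ j ∈ S, ∀ w : ℂ, R j (D.pl w 0) = 0) :
    ∃ δ : ℝ, 0 < δ ∧ ∃ Y : ℝ, ∀ (z : ℂ) (H : ℝ), |z.re| ≤ 1 → Y < z.im → 1 ≤ H → IsCM V z H →
      H ≤ Real.exp (δ * z.im) → ∀ j ∈ S, ∀ y : ℂ, 0 < y.im → Holds (R j) (fun p => V.F p y) := by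
  classical
  induction S using Finset.induction_on with
  | empty => exact ⟨1, one_pos, 0, fun _ _ _ _ _ _ _ j hj => absurd hj (Finset.notMem_empty j)⟩
  | insert a S _ ih =>
    obtain ⟨δ1, hδ1, Y1, h1⟩ := ih (fun j hj => hR j (Finset.mem_insert_of_mem hj))
      (fun j hj => hd j (Finset.mem_insert_of_mem hj)) (fun j hj => hv j (Finset.mem_insert_of_mem hj))
    obtain ⟨d, hda⟩ := hd a (Finset.mem_insert_self a S)
    obtain ⟨δ2, hδ2, Y2, h2⟩ := D.point hx (hR a (Finset.mem_insert_self a S)) hda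
      (hv a (Finset.mem_insert_self a S))
    refine ⟨min δ1 δ2, lt_min hδ1 hδ2, max (max Y1 Y2) 0, fun z H hre him hH hcm hHle j hj => ?_⟩
    have k0 : 0 < z.im := lt_of_le_of_lt (le_max_right _ _) him
    have k1 : Y1 < z.im := lt_of_le_of_lt ((le_max_left _ _).trans (le_max_left _ _)) him
    have k2 : Y2 < z.im := lt_of_le_of_lt ((le_max_right _ _).trans (le_max_left _ _)) him
    rcases Finset.mem_insert.1 hj with rfl | hj
    · refine D.everywhere (hR j (Finset.mem_insert_self j S)) hda (h2 z H hre k2 hH hcm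
        (hHle.trans (Real.exp_le_exp.2 (mul_le_mul_of_nonneg_right (min_le_right _ _) k0.le))))
    · exact h1 z H hre k1 hH hcm
        (hHle.trans (Real.exp_le_exp.2 (mul_le_mul_of_nonneg_right (min_le_left _ _) k0.le))) j hj

theorem CuspData.all {n : ℕ} {V : PolVHS n} {N : Matrix (Fin n) (Fin n) ℚ} (D : CuspData V N)
    {m : ℕ} {x : Fin m → ℂ} (hx : IsDio x) :
    ∃ δ : ℝ, 0 < δ ∧ ∃ Y : ℝ, ∀ (z : ℂ) (H : ℝ), |z.re| ≤ 1 → Y < z.im → 1 ≤ H → IsCM V z H →
      H ≤ Real.exp (δ * z.im) →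
      ∀ (R : MvPolynomial (PK V D.r) (Algebra.adjoin ℚ (Set.range x))), (∃ d, Homog (fn R) d) →
        (∀ w : ℂ, fn R (D.pl w 0) = 0) → ∀ y : ℂ, 0 < y.im → Holds (fn R) (fun p => V.F p y) := by
  classical
  have hN := noeth_adjoin x
  have hN2 : IsNoetherianRing (MvPolynomial (PK V D.r) (Algebra.adjoin ℚ (Set.range x))) :=
    MvPolynomial.isNoetherianRing
  let S : Set (MvPolynomial (PK V D.r) (Algebra.adjoin ℚ (Set.range x))) :=
    {R | (∃ d, Homog (fn R) d) ∧ ∀ w : ℂ, fn R (D.pl w 0) = 0}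
  have hfg : (Submodule.span (MvPolynomial (PK V D.r) (Algebra.adjoin ℚ (Set.range x))) S).FG :=
    IsNoetherian.noetherian _
  obtain ⟨T, hTS, hT⟩ := (Submodule.fg_span_iff_fg_span_finset_subset S).1 hfg
  obtain ⟨δ, hδ, Y, h⟩ := D.finset hx T (fun R => fn R) (fun R _ => fn_mem R)
    (fun R hR => (hTS hR).1) (fun R hR => (hTS hR).2)
  refine ⟨δ, hδ, Y, fun z H hre him hH hcm hHle R hd hv y hy W hW => ?_⟩
  have h1 : R ∈ Ideal.span (T : Set (MvPolynomial (PK V D.r) (Algebra.adjoin ℚ (Set.range x)))) := by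
    have h2 : R ∈ Submodule.span (MvPolynomial (PK V D.r) (Algebra.adjoin ℚ (Set.range x))) S :=
      Submodule.subset_span ⟨hd, hv⟩
    rw [hT] at h2
    exact h2
  exact fn_span _ _ (fun R' hR' => h z H hre him hH hcm hHle R' hR' y hy W hW) R h1

end MP2794d1
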