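import Pool.Agent.Lib.MP_2794d1_ag.C01
import Pool.Agent.Lib.MP_2794d1_ag.C08
import Pool.Agent.Lib.MP_2794d1_ag.DL.Noeth

/-!
DL.Curve: the relations which cut out the nilpotent orbit. Let `v p = γ_p (minors of exp(w₀N) W_p(0))` have coordinates
in `ℚ[x]`, `l0`, `l1` the functionals of the clock, `l' = l0 (v p₀)`, `k' = l1 (v p₀)`. On the orbit, at `exp(tN) W(0)`,
`b = l0 (m_{p₀}) = l'/γ`, `a = l1 (m_{p₀}) = (l' (t - w₀) + k')/γ`, so `m_p` is proportional to the value of the homogenised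
`E_p(t - w₀) v_p`.
-/

namespace MP2794d1

open Matrix Complex Filter Topology

theorem homP_smul (D : ℕ) (p : Polynomial ℚ) (c a b : ℂ) :
    homP D p (c * a) (c * b) = c ^ D * homP D p a b := by
  unfold homP
  rw [Finset.mul_sum]
  refine Finset.sum_congr rfl fun l hl => ?_
  have h1 : c ^ D = c ^ l * c ^ (D - l) := by
    rw [← pow_add]
    congr 1
    have := Finset.mem_range.1 hl
    omega
  have h2 : -(c * a) = c * (-a) := by ring
  rw [h2, mul_pow, mul_pow, h1]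
  ring

/-- the linear form with rational coefficients `l` in the coordinates of step `p` -/
noncomputable def linF {n : ℕ} {V : PolVHS n} {r : ℤ → ℕ} (p : ↥(Finset.Icc V.lo V.hi))
    (l : (Fin (r p) → Fin n) → ℚ) (M : PK V r → ℂ) : ℂ := ∑ i, (l i : ℂ) * M ⟨p, i⟩

/-- homogenised `E_p(s) v` with `s = a/b - k/l` -/
noncomputable def orbF {n : ℕ} {V : PolVHS n} {r : ℤ → ℕ} (p₀ : ↥(Finset.Icc V.lo V.hi))
    (l0 l1 : (Fin (r p₀) → Fin n) → ℚ) (l k : ℂ) (E : ℕ) {ι : Type} [Fintype ι] [DecidableEq ι]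
    (G : PolyGroup ι) (v : ι → ℂ) (f : ι) (M : PK V r → ℂ) : ℂ :=
  ∑ j, homP E (G.P f j) (k * linF p₀ l0 M - l * linF p₀ l1 M) (l * linF p₀ l0 M) * v j

/-- the relation -/
noncomputable def relF {n : ℕ} {V : PolVHS n} {r : ℤ → ℕ} (p₀ : ↥(Finset.Icc V.lo V.hi))
    (l0 l1 : (Fin (r p₀) → Fin n) → ℚ) (l k : ℂ) (E : ℕ) (p : ↥(Finset.Icc V.lo V.hi))
    (G : PolyGroup (Fin (r p) → Fin n)) (v : (Fin (r p) → Fin n) → ℂ) (f g : Fin (r p) → Fin n)
    (M : PK V r → ℂ) : ℂ :=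
  M ⟨p, f⟩ * orbF p₀ l0 l1 l k E G v g M - M ⟨p, g⟩ * orbF p₀ l0 l1 l k E G v f M

theorem linF_mem {n : ℕ} {V : PolVHS n} {r : ℤ → ℕ} {m : ℕ} (x : Fin m → ℂ)
    (p : ↥(Finset.Icc V.lo V.hi)) (l : (Fin (r p) → Fin n) → ℚ) :
    linF p l ∈ relSub x (PK V r) := by
  have h : linF p l = ∑ i, (fun _ : PK V r → ℂ => ((l i : ℚ) : ℂ)) * fun M => M ⟨p, i⟩ := by
    funext M
    rw [Finset.sum_apply]
    rfl
  rw [h]
  exact Subalgebra.sum_mem _ fun i _ => Subalgebra.mul_mem _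
    (relSub.const x _ (Subalgebra.algebraMap_mem _ (l i))) (relSub.coord x _)

theorem homP_mem {m : ℕ} {x : Fin m → ℂ} {κ : Type} (D : ℕ) (p : Polynomial ℚ)
    (a b : (κ → ℂ) → ℂ) (ha : a ∈ relSub x κ) (hb : b ∈ relSub x κ) :
    (fun M => homP D p (a M) (b M)) ∈ relSub x κ := by
  have h : (fun M => homP D p (a M) (b M)) = homP D p a b := by
    funext M
    rw [homP_fun]
  rw [h]
  unfold homP
  apply Subalgebra.sum_mem
  intro l _
  exact mul_mem (mul_mem (Subalgebra.algebraMap_mem _ _) (pow_mem (neg_mem ha) _)) (pow_mem hb _)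

theorem relF_mem {n : ℕ} {V : PolVHS n} {r : ℤ → ℕ} {m : ℕ} (x : Fin m → ℂ)
    (p₀ : ↥(Finset.Icc V.lo V.hi)) (l0 l1 : (Fin (r p₀) → Fin n) → ℚ) (l k : ℂ)
    (hl : l ∈ Algebra.adjoin ℚ (Set.range x)) (hk : k ∈ Algebra.adjoin ℚ (Set.range x)) (E : ℕ)
    (p : ↥(Finset.Icc V.lo V.hi)) (G : PolyGroup (Fin (r p) → Fin n))
    (v : (Fin (r p) → Fin n) → ℂ) (hv : ∀ f, v f ∈ Algebra.adjoin ℚ (Set.range x))
    (f g : Fin (r p) → Fin n) : relF p₀ l0 l1 l k E p G v f g ∈ relSub x (PK V r) := by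
  have h0 := linF_mem x p₀ l0
  have h1 := linF_mem x p₀ l1
  have hk' := relSub.const x (κ := PK V r) k hk
  have hl' := relSub.const x (κ := PK V r) l hl
  have hA : (fun M => k * linF p₀ l0 M - l * linF p₀ l1 M) ∈ relSub x (PK V r) :=
    sub_mem (mul_mem hk' h0) (mul_mem hl' h1)
  have hB : (fun M => l * linF p₀ l0 M) ∈ relSub x (PK V r) := mul_mem hl' h0
  have horb : ∀ f, orbF p₀ l0 l1 l k E G v f ∈ relSub x (PK V r) := by
    intro f
    have h : orbF p₀ l0 l1 l k E G v f = ∑ j, (fun M : PK V r → ℂ =>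
        homP E (G.P f j) (k * linF p₀ l0 M - l * linF p₀ l1 M) (l * linF p₀ l0 M)) *
          fun _ => v j := by
      funext M
      rw [Finset.sum_apply]
      rfl
    rw [h]
    exact Subalgebra.sum_mem _ fun j _ => Subalgebra.mul_mem _ (homP_mem _ _ _ _ hA hB)
      (relSub.const x _ (hv j))
  exact sub_mem (mul_mem (relSub.coord x _) (horb g)) (mul_mem (relSub.coord x _) (horb f))

theorem relF_homog {n : ℕ} {V : PolVHS n} {r : ℤ → ℕ}
    (p₀ : ↥(Finset.Icc V.lo V.hi)) (l0 l1 : (Fin (r p₀) → Fin n) → ℚ) (l k : ℂ) (E : ℕ)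
    (p : ↥(Finset.Icc V.lo V.hi)) (G : PolyGroup (Fin (r p) → Fin n))
    (v : (Fin (r p) → Fin n) → ℂ) (f g : Fin (r p) → Fin n) :
    Homog (relF p₀ l0 l1 l k E p G v f g) (fun q => (if q = p then 1 else 0) + if q = p₀ then E else 0) := by
  intro c M
  have hlin : ∀ l : (Fin (r p₀) → Fin n) → ℚ, linF p₀ l (fun k => c k.1 * M k) =
      c p₀ * linF p₀ l M := by
    intro l
    unfold linF
    rw [Finset.mul_sum]
    exact Finset.sum_congr rfl fun i _ => by ring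
  have horb : ∀ f, orbF p₀ l0 l1 l k E G v f (fun k => c k.1 * M k) =
      c p₀ ^ E * orbF p₀ l0 l1 l k E G v f M := by
    intro f
    unfold orbF
    rw [Finset.mul_sum]
    refine Finset.sum_congr rfl fun j _ => ?_
    rw [hlin, hlin]
    have e1 : k * (c p₀ * linF p₀ l0 M) - l * (c p₀ * linF p₀ l1 M) =
        c p₀ * (k * linF p₀ l0 M - l * linF p₀ l1 M) := by ring
    have e2 : l * (c p₀ * linF p₀ l0 M) = c p₀ * (l * linF p₀ l0 M) := by ring
    rw [e1, e2, homP_smul]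
    ring
  have hprod : (∏ q, c q ^ ((if q = p then 1 else 0) + if q = p₀ then E else 0)) =
      c p * c p₀ ^ E := by
    have h1 : ∀ q, c q ^ ((if q = p then 1 else 0) + if q = p₀ then E else 0) =
        (if q = p then c q else 1) * (if q = p₀ then c q ^ E else 1) := by
      intro q
      rw [pow_add]
      by_cases h2 : q = p <;> by_cases h3 : q = p₀ <;> simp [h2, h3]
    rw [Finset.prod_congr rfl fun q _ => h1 q, Finset.prod_mul_distrib,
      Finset.prod_ite_eq' Finset.univ p, Finset.prod_ite_eq' Finset.univ p₀]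
    simp
  rw [hprod]
  show (c p * M ⟨p, f⟩) * orbF p₀ l0 l1 l k E G v g (fun k => c k.1 * M k) -
    (c p * M ⟨p, g⟩) * orbF p₀ l0 l1 l k E G v f (fun k => c k.1 * M k) = _
  rw [horb, horb]
  unfold relF
  ring

/-- value of the homogenised orbit -/
theorem orbF_eq {n : ℕ} {V : PolVHS n} {r : ℤ → ℕ} (p₀ : ↥(Finset.Icc V.lo V.hi))
    (l0 l1 : (Fin (r p₀) → Fin n) → ℚ) (l k : ℂ) (hl : l ≠ 0) (E : ℕ) {ι : Type} [Fintype ι]
    [DecidableEq ι] (G : PolyGroup ι) (hE : ∀ i j, (G.P i j).natDegree ≤ E) (v : ι → ℂ) (f : ι)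
    (M : PK V r → ℂ) (hb : linF p₀ l0 M ≠ 0) :
    orbF p₀ l0 l1 l k E G v f M = (l * linF p₀ l0 M) ^ E *
      (G.E (linF p₀ l1 M / linF p₀ l0 M - k / l) *ᵥ v) f := by
  have hs : -((k * linF p₀ l0 M - l * linF p₀ l1 M) / (l * linF p₀ l0 M)) =
      linF p₀ l1 M / linF p₀ l0 M - k / l := by
    field_simp
    ring
  have h1 : (G.E (linF p₀ l1 M / linF p₀ l0 M - k / l) *ᵥ v) f =
      ∑ j, Polynomial.aeval (linF p₀ l1 M / linF p₀ l0 M - k / l) (G.P f j) * v j := rfl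
  rw [h1, Finset.mul_sum]
  unfold orbF
  refine Finset.sum_congr rfl fun j _ => ?_
  rw [homP_eq E (G.P f j) (hE f j) _ _ (mul_ne_zero hl hb), hs]
  ring

end MP2794d1
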