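import Pool.Agent.Lib.MP_2794d1_ag.Base
import Pool.Agent.Lib.MP_2794d1_ag.DL.Defs

/-!
DL.Dio: families of values `∑ c_j(i) x^{e_j}` with integral `c_j(i)` of absolute value at most `C H_i^C`.
-/

namespace MP2794d1

open Matrix Complex Filter Topology

/-- `k r_i = ∑ c_j(i) x^{e_j}` with integers `c_j(i)` of absolute value at most `C H_i^C`. -/
def DioFam {m : ℕ} (x : Fin m → ℂ) {I : Type} (H : I → ℝ) (r : I → ℂ) : Prop :=
  ∃ (ι : Type) (_ : Fintype ι) (e : ι → Fin m → ℕ) (c : ι → I → ℤ) (C k : ℕ), 0 < k ∧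
    (∀ j i, |((c j i : ℤ) : ℝ)| ≤ C * H i ^ C) ∧
    ∀ i, (k : ℂ) * r i = ∑ j, (c j i : ℂ) * ∏ t, x t ^ e j t

theorem DioFam.add {m : ℕ} {x : Fin m → ℂ} {I : Type} {H : I → ℝ} (hH : ∀ i, 1 ≤ H i)
    {r r' : I → ℂ} (h : DioFam x H r) (h' : DioFam x H r') : DioFam x H (r + r') := by
  obtain ⟨ι, hι, e, c, C, k, hk, hc, hr⟩ := h
  obtain ⟨ι', hι', e', c', C', k', hk', hc', hr'⟩ := h'
  refine ⟨ι ⊕ ι', inferInstance, Sum.elim e e',
    Sum.elim (fun j i => k' * c j i) (fun j i => k * c' j i), k' * C + k * C' + C + C', k * k',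
    Nat.mul_pos hk hk', ?_, ?_⟩
  · intro j i
    have h1 := hH i
    rcases j with j | j
    · have h2 := hc j i
      have h3 : H i ^ C ≤ H i ^ (k' * C + k * C' + C + C') := pow_le_pow_right₀ h1 (by omega)
      have h0 : (0 : ℝ) ≤ H i ^ C := pow_nonneg (zero_le_one.trans h1) _
      simp only [Sum.elim_inl, Int.cast_mul, Int.cast_natCast, abs_mul, Nat.abs_cast]
      calc (k' : ℝ) * |((c j i : ℤ) : ℝ)| ≤ k' * (C * H i ^ C) :=
            mul_le_mul_of_nonneg_left h2 (Nat.cast_nonneg _)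
        _ = (k' * C : ℝ) * H i ^ C := by ring
        _ ≤ ((k' * C + k * C' + C + C' : ℕ) : ℝ) * H i ^ (k' * C + k * C' + C + C') := by
            apply mul_le_mul _ h3 h0 (Nat.cast_nonneg _)
            push_cast
            have : (0 : ℝ) ≤ (k : ℝ) * C' + C + C' := by positivity
            linarith
    · have h2 := hc' j i
      have h3 : H i ^ C' ≤ H i ^ (k' * C + k * C' + C + C') := pow_le_pow_right₀ h1 (by omega)
      have h0 : (0 : ℝ) ≤ H i ^ C' := pow_nonneg (zero_le_one.trans h1) _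
      simp only [Sum.elim_inr, Int.cast_mul, Int.cast_natCast, abs_mul, Nat.abs_cast]
      calc (k : ℝ) * |((c' j i : ℤ) : ℝ)| ≤ k * (C' * H i ^ C') :=
            mul_le_mul_of_nonneg_left h2 (Nat.cast_nonneg _)
        _ = (k * C' : ℝ) * H i ^ C' := by ring
        _ ≤ ((k' * C + k * C' + C + C' : ℕ) : ℝ) * H i ^ (k' * C + k * C' + C + C') := by
            apply mul_le_mul _ h3 h0 (Nat.cast_nonneg _)
            push_cast
            have : (0 : ℝ) ≤ (k' : ℝ) * C + C + C' := by positivity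
            linarith
  · intro i
    rw [Fintype.sum_sum_type]
    simp only [Sum.elim_inl, Sum.elim_inr, Int.cast_mul, Int.cast_natCast, Pi.add_apply]
    have h1 := hr i
    have h2 := hr' i
    calc ((k * k' : ℕ) : ℂ) * (r i + r' i) = k' * (k * r i) + k * (k' * r' i) := by
          push_cast; ring
      _ = _ := by
          rw [h1, h2, Finset.mul_sum, Finset.mul_sum]
          congr 1
          · exact Finset.sum_congr rfl fun j _ => by ring
          · exact Finset.sum_congr rfl fun j _ => by ring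

theorem DioFam.mul {m : ℕ} {x : Fin m → ℂ} {I : Type} {H : I → ℝ} (hH : ∀ i, 1 ≤ H i)
    {r r' : I → ℂ} (h : DioFam x H r) (h' : DioFam x H r') : DioFam x H (r * r') := by
  obtain ⟨ι, hι, e, c, C, k, hk, hc, hr⟩ := h
  obtain ⟨ι', hι', e', c', C', k', hk', hc', hr'⟩ := h'
  refine ⟨ι × ι', inferInstance, fun j => e j.1 + e' j.2,
    fun j i => c j.1 i * c' j.2 i, C * C' + C + C', k * k', Nat.mul_pos hk hk', ?_, ?_⟩
  · intro j i
    have h1 := hH i
    have h2 := hc j.1 i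
    have h3 := hc' j.2 i
    have h0 : (0 : ℝ) ≤ H i ^ C := pow_nonneg (zero_le_one.trans h1) _
    have h0' : (0 : ℝ) ≤ H i ^ C' := pow_nonneg (zero_le_one.trans h1) _
    rw [Int.cast_mul, abs_mul]
    have h4 : H i ^ C * H i ^ C' ≤ H i ^ (C * C' + C + C') := by
      rw [← pow_add]
      exact pow_le_pow_right₀ h1 (by rw [add_assoc]; exact Nat.le_add_left _ _)
    calc |((c j.1 i : ℤ) : ℝ)| * |((c' j.2 i : ℤ) : ℝ)| ≤ (C * H i ^ C) * (C' * H i ^ C') :=
          mul_le_mul h2 h3 (abs_nonneg _) (by positivity)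
      _ = (C * C' : ℝ) * (H i ^ C * H i ^ C') := by ring
      _ ≤ ((C * C' + C + C' : ℕ) : ℝ) * H i ^ (C * C' + C + C') := by
          apply mul_le_mul _ h4 (by positivity) (Nat.cast_nonneg _)
          push_cast
          have : (0 : ℝ) ≤ (C : ℝ) + C' := by positivity
          linarith
  · intro i
    rw [Fintype.sum_prod_type, Pi.mul_apply]
    have h1 := hr i
    have h2 := hr' i
    calc ((k * k' : ℕ) : ℂ) * (r i * r' i) = (k * r i) * (k' * r' i) := by
          push_cast; ring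
      _ = _ := by
          rw [h1, h2, Finset.sum_mul_sum]
          refine Finset.sum_congr rfl fun j _ => Finset.sum_congr rfl fun j' _ => ?_
          have h5 : ∏ t, x t ^ (e j + e' j') t = (∏ t, x t ^ e j t) * ∏ t, x t ^ e' j' t := by
            rw [← Finset.prod_mul_distrib]
            refine Finset.prod_congr rfl fun t _ => ?_
            rw [Pi.add_apply, pow_add]
          simp only [Int.cast_mul]
          rw [h5]
          ring

theorem DioFam.int {m : ℕ} {x : Fin m → ℂ} {I : Type} {H : I → ℝ} (r : I → ℤ)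
    (C : ℕ) (hr : ∀ i, |((r i : ℤ) : ℝ)| ≤ C * H i ^ C) : DioFam x H (fun i => (r i : ℂ)) := by
  refine ⟨Unit, inferInstance, fun _ _ => 0, fun _ i => r i, C, 1, one_pos, fun _ i => hr i, ?_⟩
  intro i
  simp

theorem DioFam.const {m : ℕ} {x : Fin m → ℂ} {I : Type} {H : I → ℝ} (hH : ∀ i, 1 ≤ H i) (q : ℚ) :
    DioFam x H (fun _ => (q : ℂ)) := by
  refine ⟨Unit, inferInstance, fun _ _ => 0, fun _ _ => q.num, q.num.natAbs, q.den, q.den_pos,
    ?_, ?_⟩
  · intro _ i
    have h1 : (1 : ℝ) ≤ H i ^ q.num.natAbs := one_le_pow₀ (hH i)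
    have h2 : |((q.num : ℤ) : ℝ)| = (q.num.natAbs : ℝ) := by
      rw [← Int.cast_abs, Int.abs_eq_natAbs]; simp
    rw [h2]
    have h3 : (0 : ℝ) ≤ (q.num.natAbs : ℝ) := Nat.cast_nonneg _
    nlinarith
  · intro i
    have h4 : (q.den : ℂ) * (q : ℂ) = (q.num : ℂ) := by
      have h5 : (q.den : ℚ) * q = q.num := by rw [mul_comm]; exact Rat.mul_den_eq_num q
      exact_mod_cast congrArg (fun t : ℚ => (t : ℂ)) h5
    rw [h4]
    simp

theorem DioFam.gen {m : ℕ} {x : Fin m → ℂ} {I : Type} {H : I → ℝ} (hH : ∀ i, 1 ≤ H i)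
    (j : Fin m) : DioFam x H (fun _ => x j) := by
  classical
  refine ⟨Unit, inferInstance, fun _ => Pi.single j 1, fun _ _ => 1, 1, 1, one_pos, ?_, ?_⟩
  · intro _ i
    have := hH i
    simpa using this
  · intro i
    have h : ∏ t, x t ^ (Pi.single j 1 : Fin m → ℕ) t = x j := by
      rw [Finset.prod_eq_single j]
      · simp
      · intro t _ ht
        simp [Pi.single_eq_of_ne ht]
      · intro h
        exact absurd (Finset.mem_univ j) h
    simp [h]

/-- The families `DioFam x H` form a rational subalgebra of `I → ℂ`. -/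
noncomputable def dioSub {m : ℕ} (x : Fin m → ℂ) {I : Type} (H : I → ℝ) (hH : ∀ i, 1 ≤ H i) :
    Subalgebra ℚ (I → ℂ) where
  carrier := {r | DioFam x H r}
  mul_mem' := fun ha hb => DioFam.mul hH ha hb
  add_mem' := fun ha hb => DioFam.add hH ha hb
  algebraMap_mem' := by
    intro q
    exact DioFam.const hH q

theorem mem_dioSub {m : ℕ} {x : Fin m → ℂ} {I : Type} {H : I → ℝ} (hH : ∀ i, 1 ≤ H i) (r : I → ℂ) :
    r ∈ dioSub x H hH ↔ DioFam x H r := Iff.rfl

theorem DioFam.upper {m : ℕ} {x : Fin m → ℂ} {I : Type} {H : I → ℝ} (hH : ∀ i, 1 ≤ H i)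
    {r : I → ℂ} (h : DioFam x H r) : ∃ K : ℕ, ∀ i, ‖r i‖ ≤ K * H i ^ K := by
  obtain ⟨ι, hι, e, c, C, k, hk, hc, hr⟩ := h
  obtain ⟨B, hB⟩ := exists_nat_ge (∑ j, ‖∏ t, x t ^ e j t‖)
  refine ⟨C * B + C, fun i => ?_⟩
  have hH1 := hH i
  have hk1 : (1 : ℝ) ≤ k := by exact_mod_cast hk
  have h0 : (0 : ℝ) ≤ H i ^ C := pow_nonneg (zero_le_one.trans hH1) _
  have h1 : ‖r i‖ ≤ ‖(k : ℂ) * r i‖ := by
    rw [norm_mul, Complex.norm_natCast]
    nlinarith [norm_nonneg (r i)]
  have h2 : ‖(k : ℂ) * r i‖ ≤ C * H i ^ C * B := by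
    rw [hr i]
    calc ‖∑ j, (c j i : ℂ) * ∏ t, x t ^ e j t‖
        ≤ ∑ j, ‖(c j i : ℂ) * ∏ t, x t ^ e j t‖ := norm_sum_le _ _
      _ ≤ ∑ j, (C * H i ^ C) * ‖∏ t, x t ^ e j t‖ := by
          refine Finset.sum_le_sum fun j _ => ?_
          rw [norm_mul, Complex.norm_intCast]
          exact mul_le_mul_of_nonneg_right (hc j i) (norm_nonneg _)
      _ = (C * H i ^ C) * ∑ j, ‖∏ t, x t ^ e j t‖ := by rw [Finset.mul_sum]
      _ ≤ C * H i ^ C * B := mul_le_mul_of_nonneg_left hB (mul_nonneg (Nat.cast_nonneg _) h0)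
  have h3 : H i ^ C ≤ H i ^ (C * B + C) := pow_le_pow_right₀ hH1 (Nat.le_add_left _ _)
  calc ‖r i‖ ≤ C * H i ^ C * B := h1.trans h2
    _ = (C * B : ℝ) * H i ^ C := by ring
    _ ≤ ((C * B + C : ℕ) : ℝ) * H i ^ (C * B + C) := by
        apply mul_le_mul _ h3 h0 (Nat.cast_nonneg _)
        push_cast
        have : (0 : ℝ) ≤ (C : ℝ) := Nat.cast_nonneg _
        linarith

theorem DioFam.lower {m : ℕ} {x : Fin m → ℂ} (hx : IsDio x) {I : Type} {H : I → ℝ}
    (hH : ∀ i, 1 ≤ H i) {r : I → ℂ} (h : DioFam x H r) :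
    ∃ K : ℕ, ∀ i, r i ≠ 0 → 1 ≤ K * H i ^ K * ‖r i‖ := by
  classical
  obtain ⟨ι, hι, e, c, C, k, hk, hc, hr⟩ := h
  let E : ι → Fin m →₀ ℕ := fun j => Finsupp.equivFunOnFinite.symm (e j)
  let d : ℕ := ∑ j, ∑ t, e j t
  obtain ⟨K, hK⟩ := hx d
  let P : I → MvPolynomial (Fin m) ℤ := fun i => ∑ j, MvPolynomial.monomial (E j) (c j i)
  have hdeg : ∀ i, (P i).totalDegree ≤ d := by
    intro i
    refine (MvPolynomial.totalDegree_finsetSum _ _).trans (Finset.sup_le fun j _ => ?_)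
    refine (MvPolynomial.totalDegree_monomial_le _ _).trans ?_
    have h1 : (E j).sum (fun _ => id) = ∑ t, e j t := by
      rw [Finsupp.sum_fintype _ _ (fun _ => rfl)]
      rfl
    rw [h1]
    exact Finset.single_le_sum (f := fun j => ∑ t, e j t) (fun _ _ => Nat.zero_le _)
      (Finset.mem_univ j)
  have haev : ∀ i, MvPolynomial.aeval x (P i) = (k : ℂ) * r i := by
    intro i
    rw [hr i, map_sum]
    refine Finset.sum_congr rfl fun j _ => ?_
    rw [MvPolynomial.aeval_monomial, Finsupp.prod_fintype _ _ (fun _ => pow_zero _)]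
    rfl
  let B : I → ℝ := fun i => (Fintype.card ι * C + 1) * H i ^ C
  have hB1 : ∀ i, 1 ≤ B i := by
    intro i
    have h1 : (1 : ℝ) ≤ H i ^ C := one_le_pow₀ (hH i)
    have h2 : (0 : ℝ) ≤ (Fintype.card ι : ℝ) * C := by positivity
    show 1 ≤ (Fintype.card ι * C + 1) * H i ^ C
    nlinarith
  have hcoef : ∀ i s, |((MvPolynomial.coeff s (P i) : ℤ) : ℝ)| ≤ B i := by
    intro i s
    have h1 : MvPolynomial.coeff s (P i) = ∑ j, if E j = s then c j i else 0 := by
      show MvPolynomial.coeff s (∑ j, MvPolynomial.monomial (E j) (c j i)) = _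
      rw [MvPolynomial.coeff_sum]
      refine Finset.sum_congr rfl fun j _ => ?_
      rw [MvPolynomial.coeff_monomial]
    rw [h1, Int.cast_sum]
    have h0 : (0 : ℝ) ≤ H i ^ C := pow_nonneg (zero_le_one.trans (hH i)) _
    calc |∑ j, (((if E j = s then c j i else 0 : ℤ)) : ℝ)|
        ≤ ∑ j, |(((if E j = s then c j i else 0 : ℤ)) : ℝ)| := Finset.abs_sum_le_sum_abs _ _
      _ ≤ ∑ _j : ι, C * H i ^ C := by
          refine Finset.sum_le_sum fun j _ => ?_
          by_cases hj : E j = s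
          · rw [if_pos hj]
            exact hc j i
          · rw [if_neg hj]
            simpa using mul_nonneg (Nat.cast_nonneg C) h0
      _ = Fintype.card ι * C * H i ^ C := by
          rw [Finset.sum_const, Finset.card_univ, nsmul_eq_mul]; ring
      _ ≤ B i := by
          show _ ≤ (Fintype.card ι * C + 1) * H i ^ C
          nlinarith
  refine ⟨K * k * (Fintype.card ι * C + 1) ^ K + C * K, fun i hi => ?_⟩
  have hk0 : (k : ℂ) ≠ 0 := by exact_mod_cast hk.ne'
  have h1 := hK (P i) (B i) (hdeg i) (hB1 i) (hcoef i) (by rw [haev]; exact mul_ne_zero hk0 hi)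
  rw [haev, norm_mul, Complex.norm_natCast] at h1
  have hP : ∀ t : ℕ, 0 ≤ H i ^ t := fun t => pow_nonneg (zero_le_one.trans (hH i)) t
  have h3 : H i ^ (C * K) ≤ H i ^ (K * k * (Fintype.card ι * C + 1) ^ K + C * K) :=
    pow_le_pow_right₀ (hH i) (Nat.le_add_left _ _)
  have h4 : B i ^ K = (Fintype.card ι * C + 1 : ℝ) ^ K * H i ^ (C * K) := by
    show ((Fintype.card ι * C + 1) * H i ^ C) ^ K = _
    rw [mul_pow, ← pow_mul]
  calc (1 : ℝ) ≤ K * B i ^ K * (k * ‖r i‖) := h1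
    _ = (K * k * (Fintype.card ι * C + 1) ^ K : ℝ) * H i ^ (C * K) * ‖r i‖ := by rw [h4]; ring
    _ ≤ ((K * k * (Fintype.card ι * C + 1) ^ K + C * K : ℕ) : ℝ) *
        H i ^ (K * k * (Fintype.card ι * C + 1) ^ K + C * K) * ‖r i‖ := by
        apply mul_le_mul_of_nonneg_right _ (norm_nonneg _)
        apply mul_le_mul _ h3 (hP _) (Nat.cast_nonneg _)
        push_cast
        have : (0 : ℝ) ≤ (C : ℝ) * K := by positivity
        linarith

end MP2794d1
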