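import Pool.Agent.Lib.MP_2794d1_ag.A05
import Pool.Agent.Lib.MP_2794d1_ag.A07
import Pool.Agent.Lib.MP_2794d1_ag.DL.Dio

/-!
DL.Eig: families of eigenvalues of matrices with entries in `DioFam x H`; a nonzero eigenvalue is at least
`1 / (K H^K)`: it divides the lowest nonzero coefficient of the characteristic polynomial.
-/

namespace MP2794d1

open Matrix Complex Filter Topology

/-- `y_i` is an eigenvalue of a matrix whose entries are in `DioFam x H`. -/
def DEig {m : ℕ} (x : Fin m → ℂ) {I : Type} (H : I → ℝ) (y : I → ℂ) : Prop :=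
  ∃ (κ : Type) (_ : Fintype κ) (A : I → Matrix κ κ ℂ), (∀ a b, DioFam x H (fun i => A i a b)) ∧
    ∀ i, ∃ w : κ → ℂ, w ≠ 0 ∧ A i *ᵥ w = y i • w

theorem DEig.dio {m : ℕ} {x : Fin m → ℂ} {I : Type} {H : I → ℝ} {r : I → ℂ}
    (h : DioFam x H r) : DEig x H r := by
  refine ⟨Unit, inferInstance, fun i => Matrix.of fun _ _ => r i, fun _ _ => h, fun i => ?_⟩
  refine ⟨fun _ => 1, fun h0 => one_ne_zero (congrFun h0 ()), ?_⟩
  funext a
  simp [Matrix.mulVec, dotProduct]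

theorem DEig.alg {m : ℕ} {x : Fin m → ℂ} {I : Type} {H : I → ℝ} (hH : ∀ i, 1 ≤ H i) {y : I → ℂ}
    (h : AlgFam H y) : DEig x H y := by
  obtain ⟨κ, hκ, C, k, hk, h⟩ := h
  choose A w hw hA hb using h
  refine ⟨κ, hκ, fun i => Matrix.of fun a b => ((k : ℂ))⁻¹ * (A i a b : ℂ), ?_, ?_⟩
  · intro a b
    have h1 : DioFam x H (fun i => ((A i a b : ℤ) : ℂ)) := DioFam.int _ C fun i => hb i a b
    have h2 := DioFam.mul hH (DioFam.const (x := x) hH ((k : ℚ))⁻¹) h1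
    have h3 : ((fun _ : I => (((k : ℚ)⁻¹ : ℚ) : ℂ)) * fun i => ((A i a b : ℤ) : ℂ)) =
        fun i => ((k : ℂ))⁻¹ * (A i a b : ℂ) := by
      funext i
      simp
    rw [h3] at h2
    exact h2
  · intro i
    refine ⟨w i, hw i, ?_⟩
    have hk0 : (k : ℂ) ≠ 0 := by exact_mod_cast hk.ne'
    have h4 : (Matrix.of fun a b => ((k : ℂ))⁻¹ * (A i a b : ℂ)) =
        ((k : ℂ))⁻¹ • ((A i).map (fun q : ℤ => (q : ℂ))) := by
      ext a b
      simp
    show (Matrix.of fun a b => ((k : ℂ))⁻¹ * (A i a b : ℂ)) *ᵥ w i = y i • w i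
    rw [h4, Matrix.smul_mulVec, hA i, smul_smul, ← mul_assoc, inv_mul_cancel₀ hk0, one_mul]

theorem DEig.add {m : ℕ} {x : Fin m → ℂ} {I : Type} {H : I → ℝ} (hH : ∀ i, 1 ≤ H i) {y y' : I → ℂ}
    (h : DEig x H y) (h' : DEig x H y') : DEig x H (y + y') := by
  classical
  obtain ⟨κ, hκ, A, hA, hw⟩ := h
  obtain ⟨κ', hκ', A', hA', hw'⟩ := h'
  refine ⟨κ × κ', inferInstance, fun i => Matrix.of fun a b =>
    (if a.2 = b.2 then A i a.1 b.1 else 0) + (if a.1 = b.1 then A' i a.2 b.2 else 0), ?_, ?_⟩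
  · intro a b
    have h0 : DioFam x H (fun _ => (0 : ℂ)) := by
      have := DioFam.const (x := x) hH 0
      simpa using this
    have h1 : DioFam x H (fun i => if a.2 = b.2 then A i a.1 b.1 else 0) := by
      by_cases h : a.2 = b.2
      · simpa [h] using hA a.1 b.1
      · simpa [h] using h0
    have h2 : DioFam x H (fun i => if a.1 = b.1 then A' i a.2 b.2 else 0) := by
      by_cases h : a.1 = b.1
      · simpa [h] using hA' a.2 b.2
      · simpa [h] using h0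
    exact DioFam.add hH h1 h2
  · intro i
    obtain ⟨w, hw0, hwA⟩ := hw i
    obtain ⟨w', hw0', hwA'⟩ := hw' i
    refine ⟨fun a => w a.1 * w' a.2, ?_, ?_⟩
    · obtain ⟨a, ha⟩ := Function.ne_iff.1 hw0
      obtain ⟨b, hb⟩ := Function.ne_iff.1 hw0'
      exact Function.ne_iff.2 ⟨(a, b), mul_ne_zero ha hb⟩
    · funext a
      have e1 : ∑ b, A i a.1 b * w b = y i * w a.1 := congrFun hwA a.1
      have e2 : ∑ b, A' i a.2 b * w' b = y' i * w' a.2 := congrFun hwA' a.2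
      show ∑ b : κ × κ', ((if a.2 = b.2 then A i a.1 b.1 else 0) +
        (if a.1 = b.1 then A' i a.2 b.2 else 0)) * (w b.1 * w' b.2) = (y i + y' i) * (w a.1 * w' a.2)
      rw [Fintype.sum_prod_type]
      simp only [add_mul, Finset.sum_add_distrib, ite_mul, zero_mul]
      have e3 : ∑ b, ∑ b', (if a.2 = b' then A i a.1 b * (w b * w' b') else 0) =
          y i * (w a.1 * w' a.2) := by
        rw [← mul_assoc, ← e1, Finset.sum_mul]
        refine Finset.sum_congr rfl fun b _ => ?_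
        rw [Finset.sum_ite_eq]
        simp only [Finset.mem_univ, if_true]
        ring
      have e4 : ∑ b, ∑ b', (if a.1 = b then A' i a.2 b' * (w b * w' b') else 0) =
          y' i * (w a.1 * w' a.2) := by
        rw [Finset.sum_comm]
        have : y' i * (w a.1 * w' a.2) = w a.1 * (y' i * w' a.2) := by ring
        rw [this, ← e2, Finset.mul_sum]
        refine Finset.sum_congr rfl fun b _ => ?_
        rw [Finset.sum_ite_eq]
        simp only [Finset.mem_univ, if_true]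
        ring
      rw [e3, e4]

theorem DEig.mul {m : ℕ} {x : Fin m → ℂ} {I : Type} {H : I → ℝ} (hH : ∀ i, 1 ≤ H i) {y y' : I → ℂ}
    (h : DEig x H y) (h' : DEig x H y') : DEig x H (y * y') := by
  classical
  obtain ⟨κ, hκ, A, hA, hw⟩ := h
  obtain ⟨κ', hκ', A', hA', hw'⟩ := h'
  refine ⟨κ × κ', inferInstance, fun i => Matrix.of fun a b => A i a.1 b.1 * A' i a.2 b.2, ?_, ?_⟩
  · intro a b
    exact DioFam.mul hH (hA a.1 b.1) (hA' a.2 b.2)
  · intro i
    obtain ⟨w, hw0, hwA⟩ := hw i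
    obtain ⟨w', hw0', hwA'⟩ := hw' i
    refine ⟨fun a => w a.1 * w' a.2, ?_, ?_⟩
    · obtain ⟨a, ha⟩ := Function.ne_iff.1 hw0
      obtain ⟨b, hb⟩ := Function.ne_iff.1 hw0'
      exact Function.ne_iff.2 ⟨(a, b), mul_ne_zero ha hb⟩
    · funext a
      have e1 : ∑ b, A i a.1 b * w b = y i * w a.1 := congrFun hwA a.1
      have e2 : ∑ b, A' i a.2 b * w' b = y' i * w' a.2 := congrFun hwA' a.2
      show ∑ b : κ × κ', (A i a.1 b.1 * A' i a.2 b.2) * (w b.1 * w' b.2) =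
        (y i * y' i) * (w a.1 * w' a.2)
      rw [Fintype.sum_prod_type]
      have e5 : (y i * y' i) * (w a.1 * w' a.2) = (y i * w a.1) * (y' i * w' a.2) := by ring
      rw [e5, ← e1, ← e2, Finset.sum_mul_sum]
      refine Finset.sum_congr rfl fun b _ => Finset.sum_congr rfl fun b' _ => ?_
      ring

/-- The families `DEig x H` form a rational subalgebra of `I → ℂ`. -/
noncomputable def eigSub {m : ℕ} (x : Fin m → ℂ) {I : Type} (H : I → ℝ) (hH : ∀ i, 1 ≤ H i) :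
    Subalgebra ℚ (I → ℂ) where
  carrier := {r | DEig x H r}
  mul_mem' := fun ha hb => DEig.mul hH ha hb
  add_mem' := fun ha hb => DEig.add hH ha hb
  algebraMap_mem' := by
    intro q
    exact DEig.dio (DioFam.const hH q)

theorem mem_eigSub {m : ℕ} {x : Fin m → ℂ} {I : Type} {H : I → ℝ} (hH : ∀ i, 1 ≤ H i) (r : I → ℂ) :
    r ∈ eigSub x H hH ↔ DEig x H r := Iff.rfl

/-- an upper bound for finitely many families -/
theorem DioFam.upper_fin {m : ℕ} {x : Fin m → ℂ} {I : Type} {H : I → ℝ} (hH : ∀ i, 1 ≤ H i)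
    {J : Type} (S : Finset J) (r : J → I → ℂ) (h : ∀ j ∈ S, DioFam x H (r j)) :
    ∃ K : ℕ, ∀ j ∈ S, ∀ i, ‖r j i‖ ≤ K * H i ^ K := by
  classical
  induction S using Finset.induction_on with
  | empty => exact ⟨0, fun j hj => absurd hj (Finset.notMem_empty j)⟩
  | insert a S _ ih =>
    obtain ⟨K1, h1⟩ := ih fun j hj => h j (Finset.mem_insert_of_mem hj)
    obtain ⟨K2, h2⟩ := DioFam.upper hH (h a (Finset.mem_insert_self a S))
    refine ⟨max K1 K2, fun j hj i => ?_⟩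
    have h0 : 0 ≤ H i := zero_le_one.trans (hH i)
    rcases Finset.mem_insert.1 hj with rfl | hj
    · refine (h2 i).trans (mul_le_mul ?_ (pow_le_pow_right₀ (hH i) (le_max_right _ _))
        (pow_nonneg h0 _) (Nat.cast_nonneg _))
      exact_mod_cast le_max_right K1 K2
    · refine (h1 j hj i).trans (mul_le_mul ?_ (pow_le_pow_right₀ (hH i) (le_max_left _ _))
        (pow_nonneg h0 _) (Nat.cast_nonneg _))
      exact_mod_cast le_max_left K1 K2

/-- a lower bound for finitely many families -/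
theorem DioFam.lower_fin {m : ℕ} {x : Fin m → ℂ} (hx : IsDio x) {I : Type} {H : I → ℝ}
    (hH : ∀ i, 1 ≤ H i) {J : Type} (S : Finset J) (r : J → I → ℂ)
    (h : ∀ j ∈ S, DioFam x H (r j)) :
    ∃ K : ℕ, ∀ j ∈ S, ∀ i, r j i ≠ 0 → 1 ≤ K * H i ^ K * ‖r j i‖ := by
  classical
  induction S using Finset.induction_on with
  | empty => exact ⟨0, fun j hj => absurd hj (Finset.notMem_empty j)⟩
  | insert a S _ ih =>
    obtain ⟨K1, h1⟩ := ih fun j hj => h j (Finset.mem_insert_of_mem hj)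
    obtain ⟨K2, h2⟩ := DioFam.lower hx hH (h a (Finset.mem_insert_self a S))
    refine ⟨max K1 K2, fun j hj i hne => ?_⟩
    have h0 : 0 ≤ H i := zero_le_one.trans (hH i)
    rcases Finset.mem_insert.1 hj with rfl | hj
    · refine (h2 i hne).trans (mul_le_mul_of_nonneg_right (mul_le_mul ?_
        (pow_le_pow_right₀ (hH i) (le_max_right _ _)) (pow_nonneg h0 _) (Nat.cast_nonneg _))
        (norm_nonneg _))
      exact_mod_cast le_max_right K1 K2
    · refine (h1 j hj i hne).trans (mul_le_mul_of_nonneg_right (mul_le_mul ?_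
        (pow_le_pow_right₀ (hH i) (le_max_left _ _)) (pow_nonneg h0 _) (Nat.cast_nonneg _))
        (norm_nonneg _))
      exact_mod_cast le_max_left K1 K2

/-- a nonzero root of a polynomial is not much smaller than the lowest nonzero coefficient -/
theorem eig_root_lower (χ : Polynomial ℂ) (hχ : χ ≠ 0) (D : ℕ) (hD : χ.natDegree ≤ D) (y : ℂ)
    (hy : y ≠ 0) (hroot : χ.eval y = 0) (B Y : ℝ) (hB0 : 0 ≤ B) (hB : ∀ j ≤ D, ‖χ.coeff j‖ ≤ B)
    (hY1 : 1 ≤ Y) (hY : ‖y‖ ≤ Y) :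
    ∃ j ≤ D, χ.coeff j ≠ 0 ∧ ‖χ.coeff j‖ ≤ ‖y‖ * ((D + 1) * B * Y ^ D) := by
  classical
  set j0 := χ.natTrailingDegree with hj0
  have hc0 : χ.coeff j0 ≠ 0 := by
    have := Polynomial.trailingCoeff_nonzero_iff_nonzero.2 hχ
    exact this
  have hle : j0 ≤ D := (Polynomial.natTrailingDegree_le_natDegree χ).trans hD
  refine ⟨j0, hle, hc0, ?_⟩
  have hsum : ∑ j ∈ Finset.range (D + 1), χ.coeff j * y ^ j = 0 := by
    rw [← hroot, Polynomial.eval_eq_sum_range' (Nat.lt_succ_of_le hD)]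
  have hmem : j0 ∈ Finset.range (D + 1) := Finset.mem_range.2 (Nat.lt_succ_of_le hle)
  rw [← Finset.add_sum_erase _ _ hmem] at hsum
  have h1 : ‖χ.coeff j0‖ * ‖y‖ ^ j0 ≤
      ∑ j ∈ (Finset.range (D + 1)).erase j0, ‖y‖ ^ j0 * (‖y‖ * (B * Y ^ D)) := by
    have h2 : χ.coeff j0 * y ^ j0 = -∑ j ∈ (Finset.range (D + 1)).erase j0, χ.coeff j * y ^ j :=
      eq_neg_of_add_eq_zero_left hsum
    rw [← norm_pow, ← norm_mul, h2, norm_neg, norm_pow]
    refine (norm_sum_le _ _).trans (Finset.sum_le_sum fun j hj => ?_)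
    obtain ⟨hne, hjr⟩ := Finset.mem_erase.1 hj
    have hjD : j ≤ D := Nat.lt_succ_iff.1 (Finset.mem_range.1 hjr)
    rcases Nat.lt_or_gt_of_ne hne with hlt | hgt
    · rw [Polynomial.coeff_eq_zero_of_lt_natTrailingDegree hlt, zero_mul, norm_zero]
      positivity
    · obtain ⟨t, rfl⟩ := Nat.exists_eq_add_of_lt hgt
      rw [norm_mul, norm_pow]
      have h3 : ‖y‖ ^ t ≤ Y ^ D := (pow_le_pow_left₀ (norm_nonneg _) hY t).trans
        (pow_le_pow_right₀ hY1 (by omega))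
      have h4 := hB _ hjD
      calc ‖χ.coeff (j0 + t + 1)‖ * ‖y‖ ^ (j0 + t + 1)
          = ‖y‖ ^ j0 * (‖y‖ * (‖χ.coeff (j0 + t + 1)‖ * ‖y‖ ^ t)) := by
            rw [pow_add, pow_add, pow_one]; ring
        _ ≤ ‖y‖ ^ j0 * (‖y‖ * (B * Y ^ D)) := by
            apply mul_le_mul_of_nonneg_left _ (pow_nonneg (norm_nonneg _) _)
            apply mul_le_mul_of_nonneg_left _ (norm_nonneg _)
            exact mul_le_mul h4 h3 (pow_nonneg (norm_nonneg _) _) hB0
  rw [Finset.sum_const, Finset.card_erase_of_mem hmem, Finset.card_range, Nat.add_sub_cancel,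
    nsmul_eq_mul] at h1
  have hy0 : 0 < ‖y‖ ^ j0 := pow_pos (norm_pos_iff.2 hy) _
  have h5 : ‖χ.coeff j0‖ * ‖y‖ ^ j0 ≤ (‖y‖ * ((D + 1) * B * Y ^ D)) * ‖y‖ ^ j0 := by
    refine h1.trans ?_
    have h6 : (0 : ℝ) ≤ ‖y‖ ^ j0 * (‖y‖ * (B * Y ^ D)) := by positivity
    nlinarith
  exact le_of_mul_le_mul_right h5 hy0

/-- eigenvalues are bounded by the entries -/
theorem eig_norm_le {κ : Type} [Fintype κ] (A : Matrix κ κ ℂ) (w : κ → ℂ) (hw : w ≠ 0) (y : ℂ)
    (h : A *ᵥ w = y • w) (B : ℝ) (hB : ∀ a b, ‖A a b‖ ≤ B) : ‖y‖ ≤ Fintype.card κ * B :=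
  A05_eig hw h hB

theorem DEig.lower {m : ℕ} {x : Fin m → ℂ} (hx : IsDio x) {I : Type} {H : I → ℝ}
    (hH : ∀ i, 1 ≤ H i) {y : I → ℂ} (h : DEig x H y) :
    ∃ K : ℕ, ∀ i, y i ≠ 0 → 1 ≤ K * H i ^ K * ‖y i‖ := by
  classical
  obtain ⟨κ, hκ, A, hA, hw⟩ := h
  set D : ℕ := Fintype.card κ with hD
  -- the universal matrix
  set B : Matrix κ κ (dioSub x H hH) := Matrix.of fun a b => ⟨fun i => A i a b, hA a b⟩ with hB
  let ev : I → (dioSub x H hH) →+* ℂ := fun i =>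
    (Pi.evalRingHom (fun _ : I => ℂ) i).comp (dioSub x H hH).val.toRingHom
  have hev : ∀ i, B.map (ev i) = A i := fun i => by
    ext a b
    rfl
  have hchar : ∀ i, (A i).charpoly = B.charpoly.map (ev i) := fun i => by
    rw [← Matrix.charpoly_map, ← hev i]
  let c : ℕ → I → ℂ := fun j i => (A i).charpoly.coeff j
  have hc : ∀ j, DioFam x H (c j) := by
    intro j
    have h1 : c j = ((B.charpoly.coeff j : dioSub x H hH) : I → ℂ) := by
      funext i
      show (A i).charpoly.coeff j = _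
      rw [hchar i, Polynomial.coeff_map]
      rfl
    rw [h1]
    exact (B.charpoly.coeff j).2
  obtain ⟨K1, hK1⟩ := DioFam.upper_fin hH (Finset.range (D + 1)) c fun j _ => hc j
  obtain ⟨K2, hK2⟩ := DioFam.lower_fin hx hH (Finset.range (D + 1)) c fun j _ => hc j
  obtain ⟨K3, hK3⟩ := DioFam.upper_fin hH (Finset.univ : Finset (κ × κ)) (fun p i => A i p.1 p.2)
    fun p _ => hA p.1 p.2
  -- `|y| ≤ Y`, `Y = (D K3 + 1) H ^ K3`
  refine ⟨K2 * ((D + 1) * K1 * (D * K3 + 1) ^ D) + (K2 + (K1 + K3 * D)), fun i hi => ?_⟩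
  have hH1 := hH i
  obtain ⟨w, hw0, hwA⟩ := hw i
  have hY : ‖y i‖ ≤ (D * K3 + 1) * H i ^ K3 := by
    have h2 := eig_norm_le (A i) w hw0 (y i) hwA (K3 * H i ^ K3)
      fun a b => hK3 (a, b) (Finset.mem_univ _) i
    have h3 : (0 : ℝ) ≤ H i ^ K3 := pow_nonneg (zero_le_one.trans hH1) _
    calc ‖y i‖ ≤ D * (K3 * H i ^ K3) := h2
      _ ≤ (D * K3 + 1) * H i ^ K3 := by nlinarith
  set Y : ℝ := (D * K3 + 1) * H i ^ K3 with hYd
  have hY1 : 1 ≤ Y := by
    have h4 : (1 : ℝ) ≤ H i ^ K3 := one_le_pow₀ hH1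
    have h5 : (0 : ℝ) ≤ (D : ℝ) * K3 := by positivity
    nlinarith
  have hroot : (A i).charpoly.eval (y i) = 0 := by
    rw [Matrix.eval_charpoly, ← Matrix.exists_mulVec_eq_zero_iff]
    refine ⟨w, hw0, ?_⟩
    rw [Matrix.sub_mulVec, sub_eq_zero, Matrix.scalar_apply, Matrix.diagonal_const_mulVec]
    exact hwA.symm
  obtain ⟨j, hj, hj0, hjb⟩ := eig_root_lower (A i).charpoly (Matrix.charpoly_monic _).ne_zero D
    (Matrix.charpoly_natDegree_eq_dim (A i)).le (y i) hi hroot (K1 * H i ^ K1) Y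
    (by have := pow_nonneg (zero_le_one.trans hH1) K1; positivity)
    (fun j hj => hK1 j (Finset.mem_range.2 (Nat.lt_succ_of_le hj)) i) hY1 hY
  have h6 := hK2 j (Finset.mem_range.2 (Nat.lt_succ_of_le hj)) i hj0
  have hn : 0 ≤ ‖y i‖ := norm_nonneg _
  have hP : ∀ t : ℕ, 0 ≤ H i ^ t := fun t => pow_nonneg (zero_le_one.trans hH1) t
  have h7 : Y ^ D = (D * K3 + 1 : ℝ) ^ D * H i ^ (K3 * D) := by
    rw [hYd, mul_pow, ← pow_mul]
  have h8 : H i ^ (K2 + (K1 + K3 * D)) ≤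
      H i ^ (K2 * ((D + 1) * K1 * (D * K3 + 1) ^ D) + (K2 + (K1 + K3 * D))) :=
    pow_le_pow_right₀ hH1 (Nat.le_add_left _ _)
  calc (1 : ℝ) ≤ K2 * H i ^ K2 * ‖c j i‖ := h6
    _ ≤ K2 * H i ^ K2 * (‖y i‖ * ((D + 1) * (K1 * H i ^ K1) * Y ^ D)) :=
        mul_le_mul_of_nonneg_left hjb (mul_nonneg (Nat.cast_nonneg _) (hP _))
    _ = (K2 * ((D + 1) * K1 * (D * K3 + 1) ^ D) : ℝ) * H i ^ (K2 + (K1 + K3 * D)) * ‖y i‖ := by
        rw [h7, pow_add, pow_add]; ring
    _ ≤ ((K2 * ((D + 1) * K1 * (D * K3 + 1) ^ D) + (K2 + (K1 + K3 * D)) : ℕ) : ℝ) *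
        H i ^ (K2 * ((D + 1) * K1 * (D * K3 + 1) ^ D) + (K2 + (K1 + K3 * D))) * ‖y i‖ := by
        apply mul_le_mul_of_nonneg_right _ hn
        apply mul_le_mul _ h8 (hP _) (Nat.cast_nonneg _)
        push_cast
        have : (0 : ℝ) ≤ (K2 : ℝ) + (K1 + K3 * D) := by positivity
        linarith

end MP2794d1
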