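import Pool.Agent.Lib.MP_2794d1_ag.DL.Cont

/-!
DL.Frame: subspaces defined over `ℚ[x]` have Pluecker coordinates in `ℚ[x]`; the limit Hodge filtration; the dimensions.
-/

namespace MP2794d1

open Matrix Complex Filter Topology

theorem frame_spanned {n r m : ℕ} (x : Fin m → ℂ) (W : Matrix (Fin n) (Fin r) ℂ)
    (hW : LinearIndependent ℂ Wᵀ) (h : SpannedOver x (LinearMap.range W.mulVecLin)) :
    ∃ γ : ℂ, γ ≠ 0 ∧ ∀ f, γ * minor W f ∈ Algebra.adjoin ℚ (Set.range x) := by
  classical
  obtain ⟨S, hS, hspan⟩ := h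
  obtain ⟨b, hbS, hbspan, hbi⟩ := exists_linearIndependent ℂ S
  have hfin : Finite b := hbi.finite
  have : Fintype b := Fintype.ofFinite b
  have hcard : Fintype.card b = r := by
    have h1 := finrank_span_eq_card hbi
    have h2 : Set.range (Subtype.val : b → Fin n → ℂ) = b := Subtype.range_coe
    rw [h2, hbspan, ← hspan, frame_rank W hW] at h1
    exact h1.symm
  let e : Fin r ≃ b := (Fintype.equivFinOfCardEq hcard).symm
  let U : Matrix (Fin n) (Fin r) ℂ := Matrix.of fun i j => (e j : Fin n → ℂ) i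
  have hU : LinearIndependent ℂ Uᵀ := hbi.comp e e.injective
  have hr : LinearMap.range W.mulVecLin = LinearMap.range U.mulVecLin := by
    rw [hspan, ← hbspan, Matrix.range_mulVecLin]
    congr 1
    ext v
    constructor
    · intro hv
      refine ⟨e.symm ⟨v, hv⟩, ?_⟩
      funext i
      show ((e (e.symm ⟨v, hv⟩) : b) : Fin n → ℂ) i = v i
      rw [Equiv.apply_symm_apply]
    · rintro ⟨j, rfl⟩
      exact (e j).2
  obtain ⟨c, hc, hcf⟩ := minor_frames W U hW hU hr
  refine ⟨c, hc, fun f => ?_⟩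
  rw [← hcf]
  unfold minor
  rw [Matrix.det_apply]
  refine Subalgebra.sum_mem _ fun σ _ => zsmul_mem (Subalgebra.prod_mem _ fun i _ => ?_) _
  exact hS _ (hbS (e _).2) _

theorem qq_tendsto : Tendsto qq (comap Complex.im atTop) (𝓝 0) := by
  rw [Metric.tendsto_nhds]
  intro ε hε
  obtain ⟨a, ha⟩ := C11_qq_small ε hε
  have h1 : ∀ᶠ z in comap Complex.im atTop, a < z.im :=
    (tendsto_comap (f := Complex.im) (x := atTop)).eventually (eventually_gt_atTop a)
  filter_upwards [h1] with z hz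
  rw [dist_zero_right]
  exact ha z hz

theorem CuspData.limit {n : ℕ} {V : PolVHS n} {N : Matrix (Fin n) (Fin n) ℚ}
    (D : CuspData V N) :
    IsLimitFiltration V N (fun p => LinearMap.range (D.W p 0).mulVecLin) := by
  intro p
  refine ⟨D.r p, fun z => D.W p (qq z), D.W p 0, D.a p, D.ind p, rfl, D.eq p, fun i j => ?_⟩
  exact (D.hol p i j).continuousAt.tendsto.comp qq_tendsto

theorem CuspData.finrank {n : ℕ} {V : PolVHS n} {N : Matrix (Fin n) (Fin n) ℚ}
    (D : CuspData V N) (p : ℤ) :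
    ∀ z : ℂ, 0 < z.im → Module.finrank ℂ (V.F p z) = D.r p := by
  obtain ⟨a, ha⟩ := D.ind_near p
  refine continuation (fun z => Module.finrank ℂ (V.F p z) = D.r p) ?_
    {y : ℂ | max (max a (D.a p)) 0 < y.im}
    (isOpen_lt continuous_const Complex.continuous_im) ⟨⟨0, max (max a (D.a p)) 0 + 1⟩, by
      show max (max a (D.a p)) 0 < max (max a (D.a p)) 0 + 1
      linarith⟩ (fun y hy => lt_of_le_of_lt (le_max_right _ _) hy) ?_
  · intro z₀ hz₀
    obtain ⟨r', W, -, hW⟩ := V.hol p z₀ hz₀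
    refine ⟨Unit, inferInstance, fun _ _ => if r' = D.r p then 0 else 1,
      fun _ => analyticAt_const, ?_⟩
    filter_upwards [hW] with z hz
    rw [hz.2, frame_rank (W z) hz.1]
    by_cases h : r' = D.r p
    · simp [h]
    · simp [h]
  · intro y hy
    have h1 : max a (D.a p) < y.im := lt_of_le_of_lt (le_max_left _ _) hy
    show Module.finrank ℂ (V.F p y) = D.r p
    rw [D.eq p y (lt_of_le_of_lt (le_max_right _ _) h1)]
    exact frame_rank _ (uexp_mul_ind N D.nil y _ (ha y (lt_of_le_of_lt (le_max_left _ _) h1)))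

end MP2794d1
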