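import Pool.Agent.Lib.MP_2794d1_ag.C06
import Pool.Agent.Lib.MP_2794d1_ag.S03
import Pool.Agent.Lib.MP_2794d1_ag.DL.Curve

/-!
DL.Stage: if the nilpotent orbit is defined over `ℚ[x]`, one CM point of small height forces StageOne.
-/

namespace MP2794d1

open Matrix Complex Filter Topology

theorem range_of_prop {n : ℕ} {V : PolVHS n} {N : Matrix (Fin n) (Fin n) ℚ} (D : CuspData V N)
    (p : ↥(Finset.Icc V.lo V.hi)) (y s : ℂ) (hy : D.a p < y.im)
    (hi : LinearIndependent ℂ (D.W p (qq y))ᵀ)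
    (h : ∀ f g, D.pl y (qq y) ⟨p, f⟩ * minor (uexp (cm N) s * D.W p 0) g =
      D.pl y (qq y) ⟨p, g⟩ * minor (uexp (cm N) s * D.W p 0) f) :
    V.F p y = LinearMap.range (uexp (cm N) s * D.W p 0).mulVecLin := by
  have h1 := uexp_mul_ind N D.nil s (D.W p 0) (D.ind p)
  have h2 := uexp_mul_ind N D.nil y (D.W p (qq y)) hi
  obtain ⟨g0, hg0⟩ := exists_minor_ne _ h1
  rw [D.eq p y hy]
  refine range_eq_of_minor _ _ h1 h2 (D.pl y (qq y) ⟨p, g0⟩ / minor (uexp (cm N) s * D.W p 0) g0)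
    fun f => ?_
  have h3 := h f g0
  have h4 : minor (uexp (cm N) y * D.W p (qq y)) f = D.pl y (qq y) ⟨p, f⟩ := rfl
  rw [h4, div_mul_eq_mul_div, eq_div_iff hg0]
  exact h3

theorem range_map_uexp {n r : ℕ} (N : Matrix (Fin n) (Fin n) ℚ) (hN : N ^ n = 0)
    (W : Matrix (Fin n) (Fin r) ℂ) (s t : ℂ) :
    (LinearMap.range (uexp (cm N) s * W).mulVecLin).map (uexp (cm N) t).mulVecLin =
      LinearMap.range (uexp (cm N) (t + s) * W).mulVecLin := by
  rw [uexp_add (cm N) (cm_pow N hN), Matrix.mul_assoc, Matrix.mulVecLin_mul (uexp (cm N) t)]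
  exact (LinearMap.range_comp _ _).symm

/-- the shape in which stage one is used -/
theorem stage_finish {n : ℕ} (V : PolVHS n) (c : Cusp V) (hN : c.N ≠ 0)
    (h : ∃ (a : ℝ) (u : ℂ → ℂ) (F0 : ℤ → Submodule ℂ (Fin n → ℂ)), 0 ≤ a ∧
        (∀ y : ℂ, |y.re| < 1 → a < y.im → AnalyticAt ℂ u y) ∧
        (∀ y : ℂ, |y.re| < 1 → a < y.im → ∀ p, V.F p y = (F0 p).map (uexp (cm c.N) (u y)).mulVecLin) ∧
        ((∃ y : ℂ, |y.re| < 1 ∧ a < y.im ∧ deriv u y ≠ 0) ∨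
          ∀ p, ∀ x ∈ F0 p, ∀ s : ℂ, uexp (cm c.N) s *ᵥ x ∈ F0 p)) :
    ∃ (a : ℝ) (u : ℂ → ℂ) (F0 : ℤ → Submodule ℂ (Fin n → ℂ)), StageOne V c a u F0 := by
  obtain ⟨a, u, F0, ha, han, heq, hor⟩ := h
  refine ⟨a, u, F0, ha, han, heq, ?_⟩
  rcases hor with h | h
  · exact h
  · exfalso
    have hnil := cm_pow c.N c.nil
    have hmem : cm c.N ∈ FEnd F0 0 := by
      intro p x hx
      rw [add_zero]
      exact mem_of_uexp_mem (cm c.N) hnil (F0 p) x (h p x hx)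
    set y : ℂ := ⟨0, a + 1⟩ with hy
    have hy1 : |y.re| < 1 := by simp [hy]
    have hy2 : a < y.im := by simp [hy]
    have h8 := (FEnd_map_iff (cm c.N) hnil (u y) F0 (fun p => V.F p y)
      (fun p => heq y hy1 hy2 p) (cm c.N) 0).2 (by rw [S03_conj]; exact hmem)
    exact N_not_mem V c hN y (lt_of_le_of_lt ha hy2) h8

theorem relF_orbit {n : ℕ} {V : PolVHS n} {N : Matrix (Fin n) (Fin n) ℚ} (D : CuspData V N)
    (G : (p : ↥(Finset.Icc V.lo V.hi)) → PolyGroup (Fin (D.r p) → Fin n))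
    (hG : ∀ p, ∀ s : ℂ, (G p).E s = tens (D.r p) (uexp (cm N) s)) (w0 : ℂ)
    (γ : ↥(Finset.Icc V.lo V.hi) → ℂ) (hγ : ∀ p, γ p ≠ 0)
    (p₀ : ↥(Finset.Icc V.lo V.hi)) (l0 l1 : (Fin (D.r p₀) → Fin n) → ℚ) (l k : ℂ) (hl : l ≠ 0)
    (h0 : ∀ s, (∑ i, (l0 i : ℂ) * ((G p₀).E s *ᵥ
      fun f => γ p₀ * minor (uexp (cm N) w0 * D.W p₀ 0) f) i) = l)
    (h1 : ∀ s, (∑ i, (l1 i : ℂ) * ((G p₀).E s *ᵥ
      fun f => γ p₀ * minor (uexp (cm N) w0 * D.W p₀ 0) f) i) = l * s + k) (E : ℕ)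
    (hE : ∀ p, ∀ i j, ((G p).P i j).natDegree ≤ E) (p : ↥(Finset.Icc V.lo V.hi))
    (f g : Fin (D.r p) → Fin n) (w : ℂ) :
    relF p₀ l0 l1 l k E p (G p) (fun f => γ p * minor (uexp (cm N) w0 * D.W p 0) f) f g
      (D.pl w 0) = 0 := by
  have hA : ∀ (p : ↥(Finset.Icc V.lo V.hi)) f, γ p * D.pl w 0 ⟨p, f⟩ =
      ((G p).E (w - w0) *ᵥ fun f => γ p * minor (uexp (cm N) w0 * D.W p 0) f) f := by
    intro p f
    have e1 : (fun f => γ p * minor (uexp (cm N) w0 * D.W p 0) f) =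
        γ p • fun f => minor (uexp (cm N) w0 * D.W p 0) f := rfl
    rw [e1, Matrix.mulVec_smul, C11_key N (G p) (hG p), Pi.smul_apply, smul_eq_mul,
      ← Matrix.mul_assoc, ← uexp_add (cm N) (cm_pow N D.nil), sub_add_cancel]
    rfl
  have hB : ∀ l : (Fin (D.r p₀) → Fin n) → ℚ, γ p₀ * linF p₀ l (D.pl w 0) =
      ∑ i, (l i : ℂ) * ((G p₀).E (w - w0) *ᵥ
        fun f => γ p₀ * minor (uexp (cm N) w0 * D.W p₀ 0) f) i := by
    intro l
    unfold linF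
    rw [Finset.mul_sum]
    refine Finset.sum_congr rfl fun i _ => ?_
    rw [← hA]
    ring
  have b0 : γ p₀ * linF p₀ l0 (D.pl w 0) = l := by rw [hB, h0]
  have b1 : γ p₀ * linF p₀ l1 (D.pl w 0) = l * (w - w0) + k := by rw [hB, h1]
  have hb : linF p₀ l0 (D.pl w 0) ≠ 0 := by
    intro h
    rw [h, mul_zero] at b0
    exact hl b0.symm
  have hq : linF p₀ l1 (D.pl w 0) / linF p₀ l0 (D.pl w 0) - k / l = w - w0 := by
    have e1 : linF p₀ l1 (D.pl w 0) / linF p₀ l0 (D.pl w 0) =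
        (γ p₀ * linF p₀ l1 (D.pl w 0)) / (γ p₀ * linF p₀ l0 (D.pl w 0)) := by
      rw [mul_div_mul_left _ _ (hγ p₀)]
    rw [e1, b0, b1]
    field_simp
    ring
  have horb : ∀ f, orbF p₀ l0 l1 l k E (G p)
      (fun f => γ p * minor (uexp (cm N) w0 * D.W p 0) f) f (D.pl w 0) =
      (l * linF p₀ l0 (D.pl w 0)) ^ E * (γ p * D.pl w 0 ⟨p, f⟩) := by
    intro f
    rw [orbF_eq p₀ l0 l1 l k hl E (G p) (hE p) _ f _ hb, hq, hA]
  unfold relF
  rw [horb, horb]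
  ring

/-- the functionals of the clock along the moving flag -/
theorem linF_orbit {n : ℕ} {V : PolVHS n} {N : Matrix (Fin n) (Fin n) ℚ} (D : CuspData V N)
    (p : ↥(Finset.Icc V.lo V.hi)) (G : PolyGroup (Fin (D.r p) → Fin n))
    (hG : ∀ s : ℂ, G.E s = tens (D.r p) (uexp (cm N) s)) (l : (Fin (D.r p) → Fin n) → ℚ)
    (z q : ℂ) : linF p l (D.pl z q) = ∑ i, (l i : ℂ) * (G.E z *ᵥ fun g => minor (D.W p q) g) i := by
  unfold linF
  refine Finset.sum_congr rfl fun i _ => ?_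
  rw [C11_key N G hG]
  rfl

theorem stage_dio {n : ℕ} (V : PolVHS n) (c : Cusp V) (hN : c.N ≠ 0) (D : CuspData V c.N)
    {m : ℕ} {x : Fin m → ℂ} (hx : IsDio x) (w0 : ℂ) (γ : ↥(Finset.Icc V.lo V.hi) → ℂ)
    (hγ : ∀ p, γ p ≠ 0)
    (hv : ∀ p f, γ p * minor (uexp (cm c.N) w0 * D.W p 0) f ∈ Algebra.adjoin ℚ (Set.range x)) :
    ∃ δ : ℝ, 0 < δ ∧ ∃ Y : ℝ, ∀ (z : ℂ) (H : ℝ), |z.re| ≤ 1 → Y < z.im → 1 ≤ H → IsCM V z H →
      H ≤ Real.exp (δ * z.im) →
      ∃ (a : ℝ) (u : ℂ → ℂ) (F0 : ℤ → Submodule ℂ (Fin n → ℂ)), StageOne V c a u F0 := by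
  classical
  have hGex : ∀ p : ↥(Finset.Icc V.lo V.hi), ∃ G : PolyGroup (Fin (D.r p) → Fin n), ∀ s : ℂ,
      G.E s = tens (D.r p) (uexp (cm c.N) s) := fun p => exists_tensGroup (D.r p) c.N c.nil
  choose G hG using hGex
  have hnil := cm_pow c.N c.nil
  choose aI haI using fun p : ↥(Finset.Icc V.lo V.hi) => D.ind_near p
  let v : (p : ↥(Finset.Icc V.lo V.hi)) → (Fin (D.r p) → Fin n) → ℂ := fun p f =>
    γ p * minor (uexp (cm c.N) w0 * D.W p 0) f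
  have hvE : ∀ (p : ↥(Finset.Icc V.lo V.hi)) (s : ℂ) f, ((G p).E s *ᵥ v p) f =
      γ p * minor (uexp (cm c.N) (s + w0) * D.W p 0) f := by
    intro p s f
    have e1 : v p = γ p • fun f => minor (uexp (cm c.N) w0 * D.W p 0) f := rfl
    rw [e1, Matrix.mulVec_smul, C11_key c.N (G p) (hG p), Pi.smul_apply, smul_eq_mul,
      ← Matrix.mul_assoc, ← uexp_add (cm c.N) hnil]
  -- relations that hold on all of `ℍ` hold for the moving frame
  obtain ⟨A1, hA1⟩ : ∃ A1 : ℝ, ∀ p : ↥(Finset.Icc V.lo V.hi), max (aI p) (D.a p) ≤ A1 := by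
    refine ⟨∑ p : ↥(Finset.Icc V.lo V.hi), |max (aI p) (D.a p)|, fun p => (le_abs_self _).trans ?_⟩
    exact Finset.single_le_sum (f := fun p : ↥(Finset.Icc V.lo V.hi) => |max (aI p) (D.a p)|)
      (fun _ _ => abs_nonneg _) (Finset.mem_univ p)
  have hframe : ∀ (R : (PK V D.r → ℂ) → ℂ) (y : ℂ), A1 < y.im → Holds R (fun p => V.F p y) →
      R (D.pl y (qq y)) = 0 := by
    intro R y hy h
    refine h (fun p => uexp (cm c.N) y * D.W p (qq y)) fun p => ?_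
    have h1 := lt_of_le_of_lt (hA1 p) hy
    exact ⟨uexp_mul_ind c.N D.nil y _ (haI p y (lt_of_le_of_lt (le_max_left _ _) h1)),
      D.eq p y (lt_of_le_of_lt (le_max_right _ _) h1)⟩
  have hprop : ∀ (p : ↥(Finset.Icc V.lo V.hi)) (y s : ℂ), A1 < y.im →
      (∀ f g, D.pl y (qq y) ⟨p, f⟩ * minor (uexp (cm c.N) s * D.W p 0) g =
        D.pl y (qq y) ⟨p, g⟩ * minor (uexp (cm c.N) s * D.W p 0) f) →
      V.F p y = LinearMap.range (uexp (cm c.N) s * D.W p 0).mulVecLin := by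
    intro p y s hy h
    have h1 := lt_of_le_of_lt (hA1 p) hy
    exact range_of_prop D p y s (lt_of_le_of_lt (le_max_right _ _) h1)
      (haI p y (lt_of_le_of_lt (le_max_left _ _) h1)) h
  have hM : ∀ p, ∀ f, AnalyticAt ℂ (fun q => minor (D.W p q) f) 0 :=
    fun p f => C11_minor_analytic (D.W p) (D.hol p) f
  by_cases hcase : ∃ p₀ : ↥(Finset.Icc V.lo V.hi), ∃ s : ℂ, (G p₀).E s *ᵥ v p₀ ≠ v p₀
  · obtain ⟨p₀, hs⟩ := hcase
    obtain ⟨l0, l1, l, k, hl, hlin⟩ := lin_functional (G p₀) _ hs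
    have hadj : ∀ (p : ↥(Finset.Icc V.lo V.hi)) (f : (Fin (D.r p) → Fin n) → ℚ),
        (∑ i, (f i : ℂ) * ((G p).E 0 *ᵥ v p) i) ∈ Algebra.adjoin ℚ (Set.range x) := by
      intro p f
      rw [PolyGroup.E_zero, Matrix.one_mulVec]
      exact Subalgebra.sum_mem _ fun i _ => Subalgebra.mul_mem _
        (Subalgebra.algebraMap_mem _ (f i)) (hv p i)
    have hlm : l ∈ Algebra.adjoin ℚ (Set.range x) := by
      rw [← (hlin 0).1]
      exact hadj p₀ l0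
    have hkm : k ∈ Algebra.adjoin ℚ (Set.range x) := by
      have h1 := (hlin 0).2
      rw [mul_zero, zero_add] at h1
      rw [← h1]
      exact hadj p₀ l1
    obtain ⟨E, hE⟩ : ∃ E : ℕ, ∀ p, ∀ i j, ((G p).P i j).natDegree ≤ E := by
      refine ⟨∑ p, ∑ i, ∑ j, ((G p).P i j).natDegree, fun p i j => ?_⟩
      refine le_trans ?_ (Finset.single_le_sum
        (f := fun p => ∑ i, ∑ j, ((G p).P i j).natDegree) (fun _ _ => Nat.zero_le _)
        (Finset.mem_univ p))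
      refine le_trans ?_ (Finset.single_le_sum
        (f := fun i => ∑ j, ((G p).P i j).natDegree) (fun _ _ => Nat.zero_le _)
        (Finset.mem_univ i))
      exact Finset.single_le_sum (f := fun j => ((G p).P i j).natDegree)
        (fun _ _ => Nat.zero_le _) (Finset.mem_univ j)
    let J : Type := Σ p : ↥(Finset.Icc V.lo V.hi), (Fin (D.r p) → Fin n) × (Fin (D.r p) → Fin n)
    obtain ⟨δ, hδ, Y, hfin⟩ := D.finset hx (Finset.univ : Finset J)
      (fun j => relF p₀ l0 l1 l k E j.1 (G j.1) (v j.1) j.2.1 j.2.2)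
      (fun j _ => relF_mem x p₀ l0 l1 l k hlm hkm E j.1 (G j.1) (v j.1) (hv j.1) j.2.1 j.2.2)
      (fun j _ => ⟨_, relF_homog p₀ l0 l1 l k E j.1 (G j.1) (v j.1) j.2.1 j.2.2⟩)
      (fun j _ w => relF_orbit D G hG w0 γ hγ p₀ l0 l1 l k hl (fun s => (hlin s).1)
        (fun s => (hlin s).2) E hE j.1 j.2.1 j.2.2 w)
    let α : ℂ → ℂ := fun y => linF p₀ l1 (D.pl y (qq y))
    let β : ℂ → ℂ := fun y => linF p₀ l0 (D.pl y (qq y))
    have hα : Zfun α := (relSub.z2 (fun k z q => D.pl z q k) D.pl_z2 (linF_mem x p₀ l1)).zfun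
    have hβ : Zfun β := (relSub.z2 (fun k z q => D.pl z q k) D.pl_z2 (linF_mem x p₀ l0)).zfun
    -- the clock
    have hMh : ∀ (s : ℂ) i, ((G p₀).E s *ᵥ fun g => minor (D.W p₀ 0) g) i =
        (γ p₀)⁻¹ * ((G p₀).E (s - w0) *ᵥ v p₀) i := by
      intro s i
      rw [hvE, sub_add_cancel, ← mul_assoc, inv_mul_cancel₀ (hγ p₀), one_mul,
        C11_key c.N (G p₀) (hG p₀)]
    obtain ⟨a1, K1, _, hclock⟩ := clock (G p₀) (fun q g => minor (D.W p₀ q) g) (hM p₀) l0 l1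
      ((γ p₀)⁻¹ * l) ((γ p₀)⁻¹ * (k - l * w0)) (mul_ne_zero (inv_ne_zero (hγ p₀)) hl)
      (fun s => by
        rw [← (hlin (s - w0)).1, Finset.mul_sum]
        refine Finset.sum_congr rfl fun i _ => ?_
        rw [hMh]
        ring)
      (fun s => by
        have e1 : (γ p₀)⁻¹ * l * s + (γ p₀)⁻¹ * (k - l * w0) =
            (γ p₀)⁻¹ * (l * (s - w0) + k) := by ring
        rw [e1, ← (hlin (s - w0)).2, Finset.mul_sum]
        refine Finset.sum_congr rfl fun i _ => ?_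
        rw [hMh]
        ring)
    have hc0 : (γ p₀)⁻¹ * (k - l * w0) / ((γ p₀)⁻¹ * l) = k / l - w0 := by
      rw [mul_div_mul_left _ _ (inv_ne_zero (hγ p₀)), sub_div, mul_div_cancel_left₀ _ hl]
    have hαe : ∀ y, (∑ i, (l1 i : ℂ) * ((G p₀).E y *ᵥ fun g => minor (D.W p₀ (qq y)) g) i) = α y :=
      fun y => (linF_orbit D p₀ (G p₀) (hG p₀) l1 y (qq y)).symm
    have hβe : ∀ y, (∑ i, (l0 i : ℂ) * ((G p₀).E y *ᵥ fun g => minor (D.W p₀ (qq y)) g) i) = β y :=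
      fun y => (linF_orbit D p₀ (G p₀) (hG p₀) l0 y (qq y)).symm
    have hck : ∀ z : ℂ, |z.re| ≤ 1 → a1 < z.im → β z ≠ 0 ∧
        ‖(fun z => α z / β z) z - z - (k / l - w0)‖ ≤ K1 * Real.exp (-z.im / 2) := by
      intro z h1 h2
      have h3 := hclock z h1 h2
      rw [hc0] at h3
      refine ⟨?_, ?_⟩
      · rw [← hβe]
        exact h3.1
      · show ‖α z / β z - z - (k / l - w0)‖ ≤ _
        rw [← hβe, ← hαe]
        exact h3.2
    refine ⟨δ, hδ, Y, fun z H hre him hH hcm hHle => stage_finish V c hN ?_⟩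
    have hall := hfin z H hre him hH hcm hHle
    refine C12_finish V c.N c.nil D.r D.W α β hα hβ (k / l - w0)
      ⟨a1, fun z h1 h2 => (hck z h1 h2).1⟩ (max (max A1 a1) 0) (le_max_right _ _) ?_
      (Or.inl fun a0 _ han => C12_deriv _ (k / l - w0) a1 K1 a0 (fun z h1 h2 => (hck z h1 h2).2) han)
    intro p hp y hy1 hy2
    have j1 : A1 < y.im := lt_of_le_of_lt ((le_max_left _ _).trans (le_max_left _ _)) hy2
    have j2 : a1 < y.im := lt_of_le_of_lt ((le_max_right _ _).trans (le_max_left _ _)) hy2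
    have j3 : 0 < y.im := lt_of_le_of_lt (le_max_right _ _) hy2
    rw [range_map_uexp c.N c.nil]
    refine hprop ⟨p, hp⟩ y _ j1 fun f g => ?_
    have hβ0 : β y ≠ 0 := (hck y hy1 j2).1
    have h1 := hframe _ y j1 (hall ⟨⟨p, hp⟩, f, g⟩ (Finset.mem_univ _) y j3)
    have horb : ∀ f, orbF p₀ l0 l1 l k E (G ⟨p, hp⟩) (v ⟨p, hp⟩) f (D.pl y (qq y)) =
        (l * β y) ^ E * (γ ⟨p, hp⟩ *
          minor (uexp (cm c.N) (α y / β y + -(k / l - w0)) * D.W p 0) f) := by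
      intro f
      rw [orbF_eq p₀ l0 l1 l k hl E (G ⟨p, hp⟩) (hE ⟨p, hp⟩) _ f _ hβ0, hvE]
      have e1 : linF p₀ l1 (D.pl y (qq y)) / linF p₀ l0 (D.pl y (qq y)) - k / l + w0 =
          α y / β y + -(k / l - w0) := by
        show α y / β y - k / l + w0 = _
        ring
      rw [e1]
    have h2 : D.pl y (qq y) ⟨⟨p, hp⟩, f⟩ *
        orbF p₀ l0 l1 l k E (G ⟨p, hp⟩) (v ⟨p, hp⟩) g (D.pl y (qq y)) -
        D.pl y (qq y) ⟨⟨p, hp⟩, g⟩ *
        orbF p₀ l0 l1 l k E (G ⟨p, hp⟩) (v ⟨p, hp⟩) f (D.pl y (qq y)) = 0 := h1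
    rw [horb, horb] at h2
    have h3 : (l * β y) ^ E * γ ⟨p, hp⟩ ≠ 0 :=
      mul_ne_zero (pow_ne_zero _ (mul_ne_zero hl hβ0)) (hγ _)
    apply mul_left_cancel₀ h3
    linear_combination h2
  · push Not at hcase
    have hmin : ∀ (p : ↥(Finset.Icc V.lo V.hi)) (s : ℂ) f,
        γ p * minor (uexp (cm c.N) s * D.W p 0) f = v p f := by
      intro p s f
      have h1 := hvE p (s - w0) f
      rw [hcase p (s - w0), sub_add_cancel] at h1
      exact h1.symm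
    let J : Type := Σ p : ↥(Finset.Icc V.lo V.hi), (Fin (D.r p) → Fin n) × (Fin (D.r p) → Fin n)
    obtain ⟨δ, hδ, Y, hfin⟩ := D.finset hx (Finset.univ : Finset J)
      (fun j M => M ⟨j.1, j.2.1⟩ * v j.1 j.2.2 - M ⟨j.1, j.2.2⟩ * v j.1 j.2.1)
      (fun j _ => sub_mem (mul_mem (relSub.coord x _) (relSub.const x _ (hv _ _)))
        (mul_mem (relSub.coord x _) (relSub.const x _ (hv _ _))))
      (fun j _ => ⟨fun q => if q = j.1 then 1 else 0, fun c M => by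
        have h1 : (∏ q, c q ^ (if q = j.1 then 1 else 0)) = c j.1 := by
          rw [Finset.prod_eq_single j.1]
          · simp
          · intro b _ hb
            simp [hb]
          · intro h
            exact absurd (Finset.mem_univ _) h
        rw [h1]
        ring⟩)
      (fun j _ w => by
        have e1 := hmin j.1 w j.2.1
        have e2 := hmin j.1 w j.2.2
        show minor (uexp (cm c.N) w * D.W j.1 0) j.2.1 * v j.1 j.2.2 -
          minor (uexp (cm c.N) w * D.W j.1 0) j.2.2 * v j.1 j.2.1 = 0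
        rw [← e1, ← e2]
        ring)
    refine ⟨δ, hδ, Y, fun z H hre him hH hcm hHle => stage_finish V c hN ?_⟩
    have hall := hfin z H hre him hH hcm hHle
    refine C12_finish V c.N c.nil D.r D.W (fun _ => 0) (fun _ => 1) Zfun.zero (Zfun.const 1) 0
      ⟨0, fun z _ _ => one_ne_zero⟩ (max A1 0) (le_max_right _ _) ?_ (Or.inr ?_)
    · intro p hp y hy1 hy2
      have j1 : A1 < y.im := lt_of_le_of_lt (le_max_left _ _) hy2
      have j3 : 0 < y.im := lt_of_le_of_lt (le_max_right _ _) hy2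
      rw [range_map_uexp c.N c.nil]
      refine hprop ⟨p, hp⟩ y _ j1 fun f g => ?_
      have h1 : D.pl y (qq y) ⟨⟨p, hp⟩, f⟩ * v ⟨p, hp⟩ g -
          D.pl y (qq y) ⟨⟨p, hp⟩, g⟩ * v ⟨p, hp⟩ f = 0 :=
        hframe _ y j1 (hall ⟨⟨p, hp⟩, f, g⟩ (Finset.mem_univ _) y j3)
      apply mul_left_cancel₀ (hγ ⟨p, hp⟩)
      have e1 := hmin ⟨p, hp⟩ (0 / 1 + -0) f
      have e2 := hmin ⟨p, hp⟩ (0 / 1 + -0) g
      linear_combination h1 + D.pl y (qq y) ⟨⟨p, hp⟩, f⟩ * e2 - D.pl y (qq y) ⟨⟨p, hp⟩, g⟩ * e1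
    · intro p x' hx' hp s
      have h8 : LinearMap.range (uexp (cm c.N) (s + -0) * D.W p 0).mulVecLin =
          LinearMap.range (uexp (cm c.N) (-0) * D.W p 0).mulVecLin := by
        refine range_eq_of_minor _ _ (uexp_mul_ind c.N c.nil _ _ (D.ind p))
          (uexp_mul_ind c.N c.nil _ _ (D.ind p)) 1 fun f => ?_
        apply mul_left_cancel₀ (hγ ⟨p, hp⟩)
        have e1 := hmin ⟨p, hp⟩ (s + -0) f
        have e2 := hmin ⟨p, hp⟩ (-0) f
        linear_combination e1 - e2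
      rw [← h8, ← range_map_uexp c.N c.nil]
      exact ⟨x', hx', rfl⟩

end MP2794d1
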