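import Pool.Agent.Lib.MP_2794d1_ag.OC.OC5
import Pool.Agent.Lib.MP_2794d1_ag.X01
import Pool.Agent.Lib.MP_2794d1_ag.DL.Alg
import Pool.Agent.Lib.MP_2794d1_ag.DL.Frame
import Pool.Agent.Lib.MP_2794d1_ag.DL.Stage

/-!
DL.Main: assembly.
-/

namespace MP2794d1

open Matrix Complex Filter Topology

/-- from heights in the strip to complexities -/
theorem complexity_form {n : ℕ} (V : PolVHS n) (c : UCusp V) (hN : c.N ≠ 0) (P : Prop)
    (h : ∃ δ : ℝ, 0 < δ ∧ ∃ Y : ℝ, ∀ (z : ℂ) (H : ℝ), |z.re| ≤ 1 → Y < z.im → 1 ≤ H →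
      IsCM V z H → H ≤ Real.exp (δ * z.im) → P) :
    ∃ δ : ℝ, 0 < δ ∧ ∃ Y : ℝ, ∀ (z : ℂ) (H : ℝ), Y < z.im → 0 ≤ H → IsCMc V z H →
      H ≤ Real.exp (δ * z.im) → P := by
  obtain ⟨δ₀, hδ₀, Y₀, hst⟩ := h
  obtain ⟨C, K, Y₁, hC, hK, hY₁, hht⟩ := cm_height V c hN
  have hK0 : (0 : ℝ) < K := by exact_mod_cast hK
  have hC0 : 0 < C := lt_of_lt_of_le one_pos hC
  set Y₂ : ℝ := 2 * Real.log C / δ₀ with hY₂
  refine ⟨δ₀ / (2 * K), by positivity, max Y₀ (max Y₁ Y₂), fun z H him hH0 hcm hle => ?_⟩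
  have k0 : Y₀ < z.im := lt_of_le_of_lt (le_max_left _ _) him
  have k1 : Y₁ < z.im := lt_of_le_of_lt ((le_max_left _ _).trans (le_max_right _ _)) him
  have k2 : Y₂ < z.im := lt_of_le_of_lt ((le_max_right _ _).trans (le_max_right _ _)) him
  have hz : 0 < z.im := by linarith
  -- replace `H` by `max 1 H`
  set H' : ℝ := max 1 H with hH'
  have hH1 : 1 ≤ H' := le_max_left _ _
  have hcm1 : IsCMc V z H' := by
    obtain ⟨A, hA1, hA2, hA3⟩ := hcm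
    exact ⟨A, hA1, hA2, hA3.trans (pow_le_pow_left₀ hH0 (le_max_right _ _) 2)⟩
  have hle' : H' ≤ Real.exp (δ₀ / (2 * K) * z.im) := by
    apply max_le _ hle
    apply Real.one_le_exp
    positivity
  -- translate into the strip
  set m : ℤ := -round z.re with hm
  set z' : ℂ := z + (m : ℂ) with hz'
  have him' : z'.im = z.im := by simp [hz']
  have hre' : |z'.re| ≤ 1 := by
    have h1 : z'.re = z.re - round z.re := by simp [hz', hm, sub_eq_add_neg]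
    rw [h1]
    exact (abs_sub_round z.re).trans (by norm_num)
  have hcm' : IsCM V z' (C * H' ^ K) := by
    apply hht z' hre' (by rw [him']; exact k1.le) H' hH1
    exact isCMc_shift V c z hz H' m hcm1
  have hpow : 1 ≤ H' ^ K := one_le_pow₀ hH1
  have h1 : 1 ≤ C * H' ^ K := by nlinarith
  have h2 : C * H' ^ K ≤ Real.exp (δ₀ * z'.im) := by
    have e1 : H' ^ K ≤ Real.exp (δ₀ / 2 * z.im) := by
      calc H' ^ K ≤ (Real.exp (δ₀ / (2 * K) * z.im)) ^ K := pow_le_pow_left₀ (by linarith) hle' K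
        _ = Real.exp (δ₀ / 2 * z.im) := by
          rw [← Real.exp_nat_mul]
          congr 1
          field_simp
    have e2 : C ≤ Real.exp (δ₀ / 2 * z.im) := by
      have h5 : Real.log C ≤ δ₀ / 2 * z.im := by
        have h6 : Y₂ * (δ₀ / 2) = Real.log C := by
          rw [hY₂]
          field_simp
        nlinarith
      calc C = Real.exp (Real.log C) := (Real.exp_log hC0).symm
        _ ≤ _ := Real.exp_le_exp.2 h5
    calc C * H' ^ K ≤ Real.exp (δ₀ / 2 * z.im) * Real.exp (δ₀ / 2 * z.im) :=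
          mul_le_mul e2 e1 (by linarith) (Real.exp_pos _).le
      _ = Real.exp (δ₀ * z'.im) := by
        rw [← Real.exp_add, him']
        congr 1
        ring
  exact hst z' _ hre' (by rw [him']; exact k0) h1 hcm' h2

/-- two statements with their own constants -/
theorem one_point_and (Q : ℂ → ℝ → Prop) (P1 P2 : Prop)
    (h1 : ∃ δ : ℝ, 0 < δ ∧ ∃ Y : ℝ, ∀ (z : ℂ) (H : ℝ), Y < z.im → Q z H →
      H ≤ Real.exp (δ * z.im) → P1)
    (h2 : ∃ δ : ℝ, 0 < δ ∧ ∃ Y : ℝ, ∀ (z : ℂ) (H : ℝ), Y < z.im → Q z H →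
      H ≤ Real.exp (δ * z.im) → P2) :
    ∃ δ : ℝ, 0 < δ ∧ ∃ Y : ℝ, ∀ (z : ℂ) (H : ℝ), Y < z.im → Q z H →
      H ≤ Real.exp (δ * z.im) → P1 ∧ P2 := by
  obtain ⟨δ1, hδ1, Y1, h1⟩ := h1
  obtain ⟨δ2, hδ2, Y2, h2⟩ := h2
  refine ⟨min δ1 δ2, lt_min hδ1 hδ2, max (max Y1 Y2) 0, fun z H him hQ hle => ?_⟩
  have k0 : 0 < z.im := lt_of_le_of_lt (le_max_right _ _) him
  have k1 : Y1 < z.im := lt_of_le_of_lt ((le_max_left _ _).trans (le_max_left _ _)) him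
  have k2 : Y2 < z.im := lt_of_le_of_lt ((le_max_right _ _).trans (le_max_left _ _)) him
  exact ⟨h1 z H k1 hQ (hle.trans (Real.exp_le_exp.2
      (mul_le_mul_of_nonneg_right (min_le_left _ _) k0.le))),
    h2 z H k2 hQ (hle.trans (Real.exp_le_exp.2
      (mul_le_mul_of_nonneg_right (min_le_right _ _) k0.le)))⟩

theorem main_dio {n : ℕ} (V : PolVHS n) (hΔ : FiniteType V.grp) (c : UCusp V) (hN : c.N ≠ 0) :
    ∃ (r : ℤ → ℕ) (Fl : ℤ → Submodule ℂ (Fin n → ℂ)),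
      (∀ p, ∀ z : ℂ, 0 < z.im → Module.finrank ℂ (V.F p z) = r p) ∧
      IsLimitFiltration V c.N Fl ∧
      ∀ {m : ℕ} (x : Fin m → ℂ), ((∀ i, IsAlgebraic ℚ (x i)) ∨ IsDio x) →
        ∃ δ : ℝ, 0 < δ ∧ ∃ Y : ℝ, ∀ (z : ℂ) (H : ℝ), Y < z.im → 0 ≤ H → IsCMc V z H →
          H ≤ Real.exp (δ * z.im) →
          (∀ (R : MvPolynomial (PK V r) (Algebra.adjoin ℚ (Set.range x))),
            (∃ d, Homog (fn R) d) →
            (∀ w : ℂ, Holds (fn R) (fun p => (Fl p).map (uexp (cm c.N) w).mulVecLin)) →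
            ∀ y : ℂ, 0 < y.im → Holds (fn R) (fun p => V.F p y)) ∧
          OC.ShimuraIdeal V c.N ∧
          ((∃ w : ℂ, ∀ p, SpannedOver x ((Fl p).map (uexp (cm c.N) w).mulVecLin)) →
            IsShimuraLine V c.N) := by
  classical
  obtain ⟨c', -, hc'⟩ := exists_cusp V c
  obtain ⟨N, hNc⟩ : ∃ N, N = c.N := ⟨_, rfl⟩
  have hN' : c'.N ≠ 0 := by rw [hc']; exact hN
  choose r W aF hWan hWli hWF using c'.ext
  let D : CuspData V c'.N := ⟨c'.nil, r, W, aF, hWan, hWli, fun p z hz => hWF p z hz⟩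
  rw [← hc']
  refine ⟨D.r, fun p => LinearMap.range (D.W p 0).mulVecLin, D.finrank, D.limit, ?_⟩
  intro m x hx'
  have hx : IsDio x := by
    rcases hx' with h | h
    · exact isDio_of_algebraic x h
    · exact h
  -- relations
  have hA : ∃ δ : ℝ, 0 < δ ∧ ∃ Y : ℝ, ∀ (z : ℂ) (H : ℝ), Y < z.im → (0 ≤ H ∧ IsCMc V z H) →
      H ≤ Real.exp (δ * z.im) →
      (∀ (R : MvPolynomial (PK V D.r) (Algebra.adjoin ℚ (Set.range x))),
        (∃ d, Homog (fn R) d) →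
        (∀ w : ℂ, Holds (fn R) (fun p => (LinearMap.range (D.W p 0).mulVecLin).map
          (uexp (cm c'.N) w).mulVecLin)) →
        ∀ y : ℂ, 0 < y.im → Holds (fn R) (fun p => V.F p y)) := by
    obtain ⟨δ, hδ, Y, h⟩ := complexity_form V c hN
      (∀ (R : MvPolynomial (PK V D.r) (Algebra.adjoin ℚ (Set.range x))),
        (∃ d, Homog (fn R) d) →
        (∀ w : ℂ, Holds (fn R) (fun p => (LinearMap.range (D.W p 0).mulVecLin).map
          (uexp (cm c'.N) w).mulVecLin)) →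
        ∀ y : ℂ, 0 < y.im → Holds (fn R) (fun p => V.F p y)) (by
      obtain ⟨δ, hδ, Y, h⟩ := D.all hx
      refine ⟨δ, hδ, Y, fun z H h1 h2 h3 h4 h5 R hR hw y hy => ?_⟩
      obtain ⟨d, hd⟩ := hR
      exact h z H h1 h2 h3 h4 h5 R ⟨d, hd⟩ (fun w => (holds_orbit D hd w).1 (hw w)) y hy)
    exact ⟨δ, hδ, Y, fun z H h1 h2 h3 => h z H h1 h2.1 h2.2 h3⟩
  have hB : ∃ δ : ℝ, 0 < δ ∧ ∃ Y : ℝ, ∀ (z : ℂ) (H : ℝ), Y < z.im → (0 ≤ H ∧ IsCMc V z H) →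
      H ≤ Real.exp (δ * z.im) → OC.ShimuraIdeal V c'.N := by
    obtain ⟨δ, hδ, Y, h⟩ := OC.main V hΔ c hN
    exact ⟨δ, hδ, Y, fun z H h1 h2 h3 => by rw [hc']; exact h z H h1 h2.1 h2.2 h3⟩
  have hC : ∃ δ : ℝ, 0 < δ ∧ ∃ Y : ℝ, ∀ (z : ℂ) (H : ℝ), Y < z.im → (0 ≤ H ∧ IsCMc V z H) →
      H ≤ Real.exp (δ * z.im) →
      ((∃ w : ℂ, ∀ p, SpannedOver x ((LinearMap.range (D.W p 0).mulVecLin).map
        (uexp (cm c'.N) w).mulVecLin)) → IsShimuraLine V c'.N) := by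
    by_cases hw : ∃ w : ℂ, ∀ p, SpannedOver x ((LinearMap.range (D.W p 0).mulVecLin).map
        (uexp (cm c'.N) w).mulVecLin)
    · obtain ⟨w, hw'⟩ := hw
      have hsp : ∀ p : ↥(Finset.Icc V.lo V.hi), ∃ γ : ℂ, γ ≠ 0 ∧
          ∀ f, γ * minor (uexp (cm c'.N) w * D.W p 0) f ∈ Algebra.adjoin ℚ (Set.range x) := by
        intro p
        refine frame_spanned x _ (uexp_mul_ind c'.N D.nil w _ (D.ind p)) ?_
        have h1 := hw' p
        have h2 : (LinearMap.range (D.W p 0).mulVecLin).map (uexp (cm c'.N) w).mulVecLin =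
            LinearMap.range (uexp (cm c'.N) w * D.W p 0).mulVecLin := by
          rw [Matrix.mulVecLin_mul]
          exact (LinearMap.range_comp _ _).symm
        rwa [h2] at h1
      choose γ hγ hv using hsp
      obtain ⟨δ, hδ, Y, h⟩ := complexity_form V c hN (IsShimuraLine V c'.N) (by
        obtain ⟨δ, hδ, Y, h⟩ := stage_dio V c' hN' D hx w γ hγ hv
        refine ⟨δ, hδ, max Y 0, fun z H h1 h2 h3 h4 h5 => ?_⟩
        obtain ⟨a, u, F0, hst⟩ := h z H h1 (lt_of_le_of_lt (le_max_left _ _) h2) h3 h4 h5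
        obtain ⟨g, hg⟩ := exists_noncomm V hΔ c' hN' hst
        exact X01_line V c' hN' hst g hg z (lt_of_le_of_lt (le_max_right _ _) h2) H h4)
      exact ⟨δ, hδ, Y, fun z H h1 h2 h3 _ => h z H h1 h2.1 h2.2 h3⟩
    · exact ⟨1, one_pos, 0, fun z H _ _ _ h => absurd h hw⟩
  obtain ⟨δ, hδ, Y, h⟩ := one_point_and (fun z H => 0 ≤ H ∧ IsCMc V z H) _ _ hA
    (one_point_and (fun z H => 0 ≤ H ∧ IsCMc V z H) _ _ hB hC)
  exact ⟨δ, hδ, Y, fun z H h1 h2 h3 h4 => h z H h1 ⟨h2, h3⟩ h4⟩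

/-- the form with `δ`, `Y` depending on `V` only -/
theorem main_flag {n : ℕ} (V : PolVHS n) (hΔ : FiniteType V.grp) (c : UCusp V) (hN : c.N ≠ 0) :
    ∃ Fl : ℤ → Submodule ℂ (Fin n → ℂ), IsLimitFiltration V c.N Fl ∧
      ∃ δ : ℝ, 0 < δ ∧ ∃ Y : ℝ, ∀ (z : ℂ) (H : ℝ), Y < z.im → 0 ≤ H → IsCMc V z H →
        H ≤ Real.exp (δ * z.im) →
        OC.ShimuraIdeal V c.N ∧ (IsDioFlag c.N Fl → IsShimuraLine V c.N) := by
  obtain ⟨r, Fl, -, hFl, h⟩ := main_dio V hΔ c hN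
  refine ⟨Fl, hFl, ?_⟩
  by_cases hd : IsDioFlag c.N Fl
  · obtain ⟨m, x, w, hx, hw⟩ := hd
    obtain ⟨δ, hδ, Y, h'⟩ := h x hx
    refine ⟨δ, hδ, Y, fun z H h1 h2 h3 h4 => ?_⟩
    obtain ⟨-, e2, e3⟩ := h' z H h1 h2 h3 h4
    exact ⟨e2, fun _ => e3 ⟨w, hw⟩⟩
  · obtain ⟨δ, hδ, Y, h'⟩ := OC.main V hΔ c hN
    exact ⟨δ, hδ, Y, fun z H h1 h2 h3 h4 => ⟨h' z H h1 h2 h3 h4, fun h => absurd h hd⟩⟩

end MP2794d1
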