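import Pool.Agent.Lib.MP_2794d1_ag.B04
import Pool.Agent.Lib.MP_2794d1_ag.OC.OC4
import Pool.Agent.Lib.MP_2794d1_ag.DL.Data

/-!
DL.Point: Liouville at one CM point.
-/

namespace MP2794d1

open Matrix Complex Filter Topology

/-- index type: CM points in the strip with a height -/
abbrev PtI {n : ℕ} (V : PolVHS n) (A0 : ℝ) : Type :=
  {i : ℂ × ℝ // |i.1.re| ≤ 1 ∧ A0 < i.1.im ∧ 1 ≤ i.2 ∧ IsCM V i.1 i.2}

/-- scale factors which make the Pluecker coordinates of one step algebraic, bounded above -/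
theorem CuspData.scale {n : ℕ} {V : PolVHS n} {N : Matrix (Fin n) (Fin n) ℚ}
    (D : CuspData V N) (p : ↥(Finset.Icc V.lo V.hi)) :
    ∃ A0 : ℝ, ∀ A1 : ℝ, A0 ≤ A1 → ∃ c : PtI V A1 → ℂ, (∀ i, c i ≠ 0) ∧
      (∀ f, AlgFam (fun i : PtI V A1 => i.1.2) (fun i => c i * D.pl i.1.1 (qq i.1.1) ⟨p, f⟩)) ∧
      ∃ C : ℕ, ∀ i, ‖c i‖ ≤ C * i.1.2 ^ C := by
  obtain ⟨f0, ε, a, hε, hlow⟩ := D.lower p
  refine ⟨max a (D.a p), fun A1 hA1 => ?_⟩
  have e1 : a ≤ A1 := (le_max_left _ _).trans hA1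
  have e2 : D.a p ≤ A1 := (le_max_right _ _).trans hA1
  have hAex : ∀ i : PtI V A1, ∃ A : Matrix (Fin n) (Fin n) ℤ, (∀ a b, |(A a b : ℝ)| ≤ i.1.2) ∧
      (im A).charpoly.Separable ∧ ∀ p, ∀ x ∈ V.F p i.1.1, (im A) *ᵥ x ∈ V.F p i.1.1 :=
    fun i => i.2.2.2.2
  choose AA hA1 hA2 hA3 using hAex
  have hHI : ∀ i : PtI V A1, 1 ≤ i.1.2 := fun i => i.2.2.2.1
  have hlow' : ∀ i : PtI V A1, ε ≤ ‖D.pl i.1.1 (qq i.1.1) ⟨p, f0⟩‖ := fun i =>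
    hlow i.1.1 i.2.1 (lt_of_le_of_lt e1 i.2.2.1)
  have hMn : ∀ i : PtI V A1, minor (uexp (cm N) i.1.1 * D.W p (qq i.1.1)) f0 ≠ 0 := by
    intro i h3
    have h1 := hlow' i
    have h2 : D.pl i.1.1 (qq i.1.1) ⟨p, f0⟩ = minor (uexp (cm N) i.1.1 * D.W p (qq i.1.1)) f0 := rfl
    rw [h2, h3, norm_zero] at h1
    linarith
  obtain ⟨c, hcne, hc⟩ := plucker_alg (I := PtI V A1) (H := fun i => i.1.2) hHI AA hA1 hA2
    (fun i => uexp (cm N) i.1.1 * D.W p (qq i.1.1)) (fun i => linInd_of_minor_ne _ f0 (hMn i)) (by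
      intro i x hx
      rw [← D.eq p i.1.1 (lt_of_le_of_lt e2 i.2.2.1)] at hx ⊢
      exact hA3 i p x hx)
  refine ⟨c, hcne, hc, ?_⟩
  obtain ⟨C1, hC1, hu1⟩ := (hc f0).upper hHI
  obtain ⟨C2, hC2⟩ := exists_nat_ge (C1 / ε)
  refine ⟨C1 + C2, fun i => ?_⟩
  have hH1 := hHI i
  have h1 : ‖c i * minor (uexp (cm N) i.1.1 * D.W p (qq i.1.1)) f0‖ ≤ C1 * i.1.2 ^ C1 := hu1 i
  rw [norm_mul] at h1
  have h2 : ‖c i‖ * ε ≤ C1 * i.1.2 ^ C1 :=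
    (mul_le_mul_of_nonneg_left (hlow' i) (norm_nonneg _)).trans h1
  have h3 : ‖c i‖ ≤ C1 / ε * i.1.2 ^ C1 := by
    rw [div_mul_eq_mul_div, le_div_iff₀ hε]
    exact h2
  have h4 : i.1.2 ^ C1 ≤ i.1.2 ^ (C1 + C2) := pow_le_pow_right₀ hH1 (by omega)
  refine h3.trans (mul_le_mul ?_ h4 (pow_nonneg (zero_le_one.trans hH1) _) (Nat.cast_nonneg _))
  push_cast
  have : (0 : ℝ) ≤ (C1 : ℝ) := Nat.cast_nonneg _
  linarith

/-- One CM point of small height: a relation over `ℚ[x]` on the nilpotent orbit holds near the cusp. -/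
theorem CuspData.point {n : ℕ} {V : PolVHS n} {N : Matrix (Fin n) (Fin n) ℚ} (D : CuspData V N)
    {m : ℕ} {x : Fin m → ℂ} (hx : IsDio x) {R : (PK V D.r → ℂ) → ℂ} (hR : R ∈ relSub x (PK V D.r))
    {d : ↥(Finset.Icc V.lo V.hi) → ℕ} (hd : Homog R d) (hv : ∀ w : ℂ, R (D.pl w 0) = 0) :
    ∃ δ : ℝ, 0 < δ ∧ ∃ Y : ℝ, ∀ (z : ℂ) (H : ℝ), |z.re| ≤ 1 → Y < z.im → 1 ≤ H → IsCM V z H →
      H ≤ Real.exp (δ * z.im) → ∃ a : ℝ, ∀ y : ℂ, a < y.im → R (D.pl y (qq y)) = 0 := by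
  classical
  have hzf : Zfun (fun y => R (D.pl y (qq y))) := (relSub.z2 (fun k z q => D.pl z q k) D.pl_z2 hR).zfun
  by_cases hall : ∃ a : ℝ, ∀ y : ℂ, a < y.im → R (D.pl y (qq y)) = 0
  · exact ⟨1, one_pos, 0, fun _ _ _ _ _ _ _ => hall⟩
  obtain ⟨m', hm1, -, -⟩ := hzf.logderiv hall
  obtain ⟨a1, ha1⟩ := hm1 1 one_pos
  obtain ⟨a2, K, hK, ha2⟩ := (relSub.z2 (fun k z q => D.pl z q k) D.pl_z2 hR).small hv
  choose A0 hA0 using D.scale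
  -- a common bound
  obtain ⟨A1, hA1⟩ : ∃ A1 : ℝ, ∀ p, A0 p ≤ A1 := by
    refine ⟨∑ p, |A0 p|, fun p => (le_abs_self _).trans ?_⟩
    exact Finset.single_le_sum (f := fun p => |A0 p|) (fun _ _ => abs_nonneg _) (Finset.mem_univ p)
  choose c hc0 hcalg C hC using fun p => hA0 p A1 (hA1 p)
  let HI : PtI V A1 → ℝ := fun i => i.1.2
  have hHI : ∀ i, 1 ≤ HI i := fun i => i.2.2.2.1
  have hE : DEig x HI (fun i => R (fun k => c k.1 i * D.pl i.1.1 (qq i.1.1) k)) :=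
    relSub.deig hHI (fun k i => c k.1 i * D.pl i.1.1 (qq i.1.1) k)
      (fun k => DEig.alg hHI (hcalg k.1 k.2)) hR
  obtain ⟨K0, hK0⟩ := DEig.lower hx hHI hE
  -- the product of the scale factors
  let E : ℕ := ∑ p, C p * d p
  let B : ℝ := ∏ p, (C p : ℝ) ^ d p
  have hB0 : 0 ≤ B := Finset.prod_nonneg fun p _ => pow_nonneg (Nat.cast_nonneg _) _
  have hprod : ∀ i : PtI V A1, ‖∏ p, c p i ^ d p‖ ≤ B * HI i ^ E := by
    intro i
    rw [norm_prod]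
    have h1 : ∏ p, ‖c p i ^ d p‖ ≤ ∏ p, ((C p : ℝ) ^ d p * HI i ^ (C p * d p)) := by
      refine Finset.prod_le_prod (fun p _ => norm_nonneg _) fun p _ => ?_
      rw [norm_pow]
      calc ‖c p i‖ ^ d p ≤ (C p * HI i ^ C p) ^ d p := pow_le_pow_left₀ (norm_nonneg _) (hC p i) _
        _ = (C p : ℝ) ^ d p * HI i ^ (C p * d p) := by rw [mul_pow, ← pow_mul]
    refine h1.trans (le_of_eq ?_)
    rw [Finset.prod_mul_distrib, Finset.prod_pow_eq_pow_sum]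
  obtain ⟨δ, hδ, Y, hY, hgr⟩ := OC.growth (K0 * B * K) (by positivity) (K0 + E)
  refine ⟨δ, hδ, max (max Y A1) (max a1 a2), fun z H hre him hH1 hcm hHle => ?_⟩
  exfalso
  have k1 : Y < z.im := lt_of_le_of_lt ((le_max_left _ _).trans (le_max_left _ _)) him
  have k2 : A1 < z.im := lt_of_le_of_lt ((le_max_right _ _).trans (le_max_left _ _)) him
  have k3 : a1 < z.im := lt_of_le_of_lt ((le_max_left _ _).trans (le_max_right _ _)) him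
  have k4 : a2 < z.im := lt_of_le_of_lt ((le_max_right _ _).trans (le_max_right _ _)) him
  let i : PtI V A1 := ⟨(z, H), hre, k2, hH1, hcm⟩
  have hne : R (D.pl z (qq z)) ≠ 0 := (ha1 z hre k3).2.1
  have hsm : ‖R (D.pl z (qq z))‖ ≤ K * Real.exp (-z.im) := ha2 z hre k4
  have hval : R (fun k => c k.1 i * D.pl z (qq z) k) = (∏ p, c p i ^ d p) * R (D.pl z (qq z)) :=
    hd (fun p => c p i) (D.pl z (qq z))
  have hP0 : (∏ p, c p i ^ d p) ≠ 0 := Finset.prod_ne_zero_iff.2 fun p _ => pow_ne_zero _ (hc0 p i)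
  have h1 : 1 ≤ K0 * H ^ K0 * ‖R (fun k => c k.1 i * D.pl z (qq z) k)‖ :=
    hK0 i (by
      show R (fun k => c k.1 i * D.pl z (qq z) k) ≠ 0
      rw [hval]
      exact mul_ne_zero hP0 hne)
  rw [hval, norm_mul] at h1
  have hHp : (0 : ℝ) ≤ H := by linarith
  have h2 : ‖∏ p, c p i ^ d p‖ * ‖R (D.pl z (qq z))‖ ≤ (B * H ^ E) * (K * Real.exp (-z.im)) :=
    mul_le_mul (hprod i) hsm (norm_nonneg _) (by positivity)
  have h3 : 1 ≤ (K0 * B * K * H ^ (K0 + E)) * Real.exp (-z.im) := by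
    calc (1 : ℝ) ≤ K0 * H ^ K0 * (‖∏ p, c p i ^ d p‖ * ‖R (D.pl z (qq z))‖) := h1
      _ ≤ K0 * H ^ K0 * ((B * H ^ E) * (K * Real.exp (-z.im))) :=
          mul_le_mul_of_nonneg_left h2 (by positivity)
      _ = _ := by rw [pow_add]; ring
  have h4 : (K0 * B * K * H ^ (K0 + E)) * Real.exp (-z.im) < 1 := by
    calc (K0 * B * K * H ^ (K0 + E)) * Real.exp (-z.im)
        < Real.exp z.im * Real.exp (-z.im) :=
          mul_lt_mul_of_pos_right (hgr z.im H k1 hH1 hHle) (Real.exp_pos _)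
      _ = 1 := by rw [← Real.exp_add, add_neg_cancel, Real.exp_zero]
  linarith

end MP2794d1
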